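import Pool.Agent.Lib.MP_bcd198_co.PM

/-!
# MP_bcd198_co, stream H: the action on functions and the scalar product (complete)
-/

set_option autoImplicit false
set_option linter.unusedSectionVars false

namespace MPbcd198.H

open Equiv

section
variable {Ω : Type}

theorem actF_apply (σ : Perm Ω) (f : FPM Ω) (a : PMT Ω) : actF σ f a = f ((conjPM σ).symm a) := rfl

theorem conjPM_apply (σ : Perm Ω) (a : PMT Ω) : (conjPM σ a).1 = σ * a.1 * σ⁻¹ := rfl

theorem conjPM_symm_apply (σ : Perm Ω) (a : PMT Ω) : ((conjPM σ).symm a).1 = σ⁻¹ * a.1 * σ := rfl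

theorem conjPM_one (a : PMT Ω) : conjPM 1 a = a := by
  apply Subtype.ext
  rw [conjPM_apply]
  simp

theorem conjPM_mul (σ τ : Perm Ω) (a : PMT Ω) : conjPM (σ * τ) a = conjPM σ (conjPM τ a) := by
  apply Subtype.ext
  simp only [conjPM_apply]
  group

theorem conjPM_inv (σ : Perm Ω) (a : PMT Ω) : conjPM σ⁻¹ a = (conjPM σ).symm a := by
  apply Subtype.ext
  rw [conjPM_apply, conjPM_symm_apply]
  group

/-- conjugation, applied to a point -/
theorem conjPM_val (σ : Perm Ω) (a : PMT Ω) (x : Ω) : (conjPM σ a).1 (σ x) = σ (a.1 x) := by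
  simp [conjPM_apply]

/-- how to prove that two matchings are conjugate by `σ` -/
theorem conjPM_eq {σ : Perm Ω} {a b : PMT Ω} (h : ∀ x, b.1 (σ x) = σ (a.1 x)) : conjPM σ a = b := by
  apply Subtype.ext
  ext y
  obtain ⟨x, rfl⟩ := σ.surjective y
  rw [conjPM_val, h]

theorem actF_conj (σ : Perm Ω) (f : FPM Ω) (a : PMT Ω) : actF σ f (conjPM σ a) = f a := by
  rw [actF_apply, Equiv.symm_apply_apply]

theorem actF_one (f : FPM Ω) : actF 1 f = f := by
  funext a
  rw [actF_apply, ← conjPM_inv, inv_one, conjPM_one]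

theorem actF_mul (σ τ : Perm Ω) (f : FPM Ω) : actF (σ * τ) f = actF σ (actF τ f) := by
  funext a
  simp only [actF_apply, ← conjPM_inv, mul_inv_rev, conjPM_mul]

theorem actF_inv_act (σ : Perm Ω) (f : FPM Ω) : actF σ⁻¹ (actF σ f) = f := by
  rw [← actF_mul, inv_mul_cancel, actF_one]

theorem actF_act_inv (σ : Perm Ω) (f : FPM Ω) : actF σ (actF σ⁻¹ f) = f := by
  rw [← actF_mul, mul_inv_cancel, actF_one]

open Classical in
/-- the delta function of a matching -/
noncomputable def dl (a : PMT Ω) : FPM Ω := fun b => if b = a then 1 else 0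

theorem dl_self (a : PMT Ω) : dl a a = 1 := by simp [dl]

theorem actF_dl (σ : Perm Ω) (a : PMT Ω) : actF σ (dl a) = dl (conjPM σ a) := by
  funext b
  rw [actF_apply, dl, dl]
  by_cases h : (conjPM σ).symm b = a
  · rw [if_pos h, if_pos ((conjPM σ).symm_apply_eq.mp h)]
  · rw [if_neg h, if_neg fun h' => h ((conjPM σ).symm_apply_eq.mpr h')]

end

section
variable {Ω : Type} [Fintype Ω] [DecidableEq Ω]

theorem ipF_add_right (f g g' : FPM Ω) : ipF f (g + g') = ipF f g + ipF f g' := by
  simp only [ipF, Pi.add_apply, mul_add, Finset.sum_add_distrib]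

theorem ipF_add_left (f f' g : FPM Ω) : ipF (f + f') g = ipF f g + ipF f' g := by
  simp only [ipF, Pi.add_apply, map_add, add_mul, Finset.sum_add_distrib]

theorem ipF_smul_right (c : ℂ) (f g : FPM Ω) : ipF f (c • g) = c * ipF f g := by
  simp only [ipF, Pi.smul_apply, smul_eq_mul, Finset.mul_sum]
  exact Finset.sum_congr rfl fun a _ => by ring

theorem ipF_smul_left (c : ℂ) (f g : FPM Ω) : ipF (c • f) g = (starRingEnd ℂ) c * ipF f g := by
  simp only [ipF, Pi.smul_apply, smul_eq_mul, Finset.mul_sum, map_mul]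
  exact Finset.sum_congr rfl fun a _ => by ring

theorem ipF_zero_right (f : FPM Ω) : ipF f 0 = 0 := by
  simp [ipF]

theorem ipF_zero_left (f : FPM Ω) : ipF 0 f = 0 := by
  simp [ipF]

theorem ipF_sub_right (f g g' : FPM Ω) : ipF f (g - g') = ipF f g - ipF f g' := by
  simp only [ipF, Pi.sub_apply, mul_sub, Finset.sum_sub_distrib]

theorem ipF_sub_left (f f' g : FPM Ω) : ipF (f - f') g = ipF f g - ipF f' g := by
  simp only [ipF, Pi.sub_apply, map_sub, sub_mul, Finset.sum_sub_distrib]

theorem ipF_sum_right {ι : Type*} (s : Finset ι) (f : FPM Ω) (g : ι → FPM Ω) :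
    ipF f (∑ i ∈ s, g i) = ∑ i ∈ s, ipF f (g i) := by
  classical
  induction s using Finset.induction_on with
  | empty => simp [ipF_zero_right]
  | insert i s hi ih => rw [Finset.sum_insert hi, Finset.sum_insert hi, ipF_add_right, ih]

theorem ipF_conj (f g : FPM Ω) : (starRingEnd ℂ) (ipF f g) = ipF g f := by
  simp only [ipF, map_sum, map_mul, Complex.conj_conj]
  exact Finset.sum_congr rfl fun a _ => mul_comm _ _

theorem ipF_self (f : FPM Ω) : ipF f f = ((∑ a ∈ (open Classical in (Finset.univ : Finset (PMT Ω))), ‖f a‖ ^ 2 : ℝ) : ℂ) := by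
  unfold ipF
  push_cast
  refine Finset.sum_congr rfl fun a _ => ?_
  rw [← Complex.normSq_eq_conj_mul_self, Complex.normSq_eq_norm_sq]
  push_cast
  rfl

theorem ipF_self_eq_zero {f : FPM Ω} : ipF f f = 0 ↔ f = 0 := by
  classical
  constructor
  · intro h
    rw [ipF_self] at h
    have h1 : ∑ a : PMT Ω, ‖f a‖ ^ 2 = 0 := by exact_mod_cast h
    rw [Finset.sum_eq_zero_iff_of_nonneg fun a _ => by positivity] at h1
    funext a
    have := h1 a (Finset.mem_univ a)
    simpa using this
  · rintro rfl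
    exact ipF_zero_left 0

theorem ipF_actF (σ : Perm Ω) (f g : FPM Ω) : ipF (actF σ f) (actF σ g) = ipF f g := by
  classical
  unfold ipF
  simp only [actF_apply]
  exact Fintype.sum_equiv (conjPM σ).symm _ _ fun a => rfl

theorem ipF_dl_left (a : PMT Ω) (f : FPM Ω) : ipF (dl a) f = f a := by
  classical
  unfold ipF dl
  rw [Finset.sum_eq_single a]
  · simp
  · intro b _ hb
    simp [hb]
  · intro h
    exact absurd (Finset.mem_univ a) h

theorem ipF_dl_right (a : PMT Ω) (f : FPM Ω) : ipF f (dl a) = (starRingEnd ℂ) (f a) := by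
  rw [← ipF_conj, ipF_dl_left]

open Classical in
/-- expansion in the delta functions -/
theorem eq_sum_dl (f : FPM Ω) : f = ∑ a : PMT Ω, f a • dl a := by
  funext b
  rw [Finset.sum_apply, Finset.sum_eq_single b]
  · simp [dl]
  · intro a _ ha
    simp [dl, ha.symm]
  · intro h
    exact absurd (Finset.mem_univ b) h

open Classical in
/-- a linear map in terms of its kernel `T (dl a) b` -/
theorem map_apply_eq {Ω' : Type} (T : FPM Ω →ₗ[ℂ] FPM Ω') (f : FPM Ω) (b : PMT Ω') :
    T f b = ∑ a : PMT Ω, f a * T (dl a) b := by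
  conv_lhs => rw [eq_sum_dl f]
  rw [map_sum, Finset.sum_apply]
  refine Finset.sum_congr rfl fun a _ => ?_
  rw [map_smul, Pi.smul_apply, smul_eq_mul]

open Classical in
/-- the trace of an endomorphism is the sum of the diagonal of the kernel -/
theorem trace_eq (T : FPM Ω →ₗ[ℂ] FPM Ω) :
    LinearMap.trace ℂ (FPM Ω) T = ∑ a : PMT Ω, T (dl a) a := by
  rw [LinearMap.trace_eq_matrix_trace ℂ (Pi.basisFun ℂ (PMT Ω)) T, Matrix.trace]
  refine Finset.sum_congr rfl fun a _ => ?_
  have h1 : (Pi.basisFun ℂ (PMT Ω)) a = dl a := by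
    funext b
    rw [Pi.basisFun_apply, dl]
    by_cases h : b = a
    · rw [if_pos h, h, Pi.single_eq_same]
    · rw [if_neg h, Pi.single_eq_of_ne h]
  rw [Matrix.diag_apply, LinearMap.toMatrix_apply, Pi.basisFun_repr, h1]

/-- two endomorphisms are equal if they agree on the delta functions -/
theorem map_ext {Ω' : Type} {S T : FPM Ω →ₗ[ℂ] FPM Ω'} (h : ∀ a, S (dl a) = T (dl a)) : S = T := by
  classical
  apply LinearMap.ext
  intro f
  funext b
  rw [map_apply_eq S, map_apply_eq T]
  exact Finset.sum_congr rfl fun a _ => by rw [h]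

end

end MPbcd198.H
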