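import Pool.Agent.Lib.MP_bcd198_co.H.Mod
import Pool.Agent.Lib.MP_bcd198_co.IfC

/-!
# MP_bcd198_co, stream H: Theorem B1
-/

set_option autoImplicit false
set_option linter.unusedSectionVars false

namespace MPbcd198.H

open Equiv

/-- Job Bnd. [3.2] Proof. Let `D = dim V ≥ 1` (`finrank_pos`). Choose `k` and `η₁` (depending on `r`, `η`) with `k / (k + 1) ≥ 1 - η`, `η₁ ≤ η`, so that
`-(1/2) (k/(k+1)) (1 - 1/r - η₁) ≤ -(1/2) (1 - 1/r) + η`. If no pair of matchings is in relation `Rel r` the operator is zero (`KOp_zero`), take `ω = 0`. Otherwise let `Rel r a b`; then by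
`exists_col` and `normal_form` `a = pmE e`, `b = bE e s`, by `rel_pmE_bE` all cycles of `s` have length `r`, and `ω = om V a b = omS V e s` works by `om_KOp`. Apply `posdef_bound r hr η₁` to
the function `omS V e` (`omS_posdef`, `omS_conj`, `omS_one`) with `δ = sqrt ((∑ s, omS V e s ^ 2) / m!)`; `0 < δ ≤ 1` by `omS_one` and `om_le`. By `mean_sq_le`
`δ ≤ D ^ (-(1/2) k/(k+1)) * (m+1) ^ (2^k)`, and `D ≥ 1`. (The case `m = 0` is not special.) -/
theorem bound (r : ℕ) (hr : 2 ≤ r) (η : ℝ) (hη : 0 < η) : ∃ C : ℝ,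
    ∀ (Ω : Type) [Fintype Ω] [DecidableEq Ω] (m : ℕ), Fintype.card Ω = 2 * m → r ∣ m →
      ∀ V ∈ Irr Ω, ∃ ω : ℂ, (∀ f ∈ V, KOp Ω r f = ω • f) ∧
        ‖ω‖ ≤ C * ((m : ℝ) + 1) ^ C *
          (Module.finrank ℂ V : ℝ) ^ (-(1 / 2) * (1 - 1 / (r : ℝ)) + η) := by
  obtain ⟨k, hk⟩ : ∃ k : ℕ, 1 / ((k : ℝ) + 1) < η := exists_nat_one_div_lt hη
  have hη1 : 0 < min η (1 / 4) := lt_min hη (by norm_num)
  have hη2 : min η (1 / 4) ≤ η := min_le_left _ _
  have hη3 : min η (1 / 4 : ℝ) ≤ 1 / 4 := min_le_right _ _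
  obtain ⟨C, hC⟩ := posdef_bound r hr (min η (1 / 4)) hη1
  generalize min η (1 / 4 : ℝ) = η₁ at hη1 hη2 hη3 hC
  refine ⟨|C| + 2 ^ k, ?_⟩
  intro Ω _ _ m hm hrm V hV
  have hD : (1 : ℝ) ≤ (Module.finrank ℂ V : ℝ) := by
    have := finrank_pos hV
    exact_mod_cast this
  have hm1 : (1 : ℝ) ≤ (m : ℝ) + 1 := by
    have : (0 : ℝ) ≤ (m : ℝ) := Nat.cast_nonneg m
    linarith
  by_cases hex : ∃ a b : PMT Ω, Rel r a.1 b.1
  swap
  · refine ⟨0, ?_, ?_⟩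
    · intro f _
      rw [KOp_zero fun a b h => hex ⟨a, b, h⟩, zero_smul]
    · rw [norm_zero]
      positivity
  obtain ⟨a, b, hab⟩ := hex
  obtain ⟨f, hf⟩ := exists_col a b
  obtain ⟨e, s, rfl, rfl, -⟩ := normal_form hm a b f hf
  have hs : ∀ i, Function.minimalPeriod (⇑s) i = r := (rel_pmE_bE e s).mp hab
  refine ⟨((om V (pmE e) (bE e s) : ℝ) : ℂ), om_KOp hV hab, ?_⟩
  rw [Complex.norm_real, Real.norm_eq_abs]
  have hdef : om V (pmE e) (bE e s) = omS V e s := rfl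
  rw [hdef]
  have hfac : (0 : ℝ) < (m.factorial : ℝ) := by exact_mod_cast m.factorial_pos
  have hsumpos : 1 ≤ ∑ s : Perm (Fin m), omS V e s ^ 2 := by
    have h1 : omS V e 1 ^ 2 ≤ ∑ s : Perm (Fin m), omS V e s ^ 2 :=
      Finset.single_le_sum (f := fun s => omS V e s ^ 2) (fun s _ => sq_nonneg _) (Finset.mem_univ 1)
    rw [omS_one hV] at h1
    linarith
  have hmean0 : 0 < (∑ s : Perm (Fin m), omS V e s ^ 2) / (m.factorial : ℝ) := div_pos (by linarith) hfac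
  have hmean1 : (∑ s : Perm (Fin m), omS V e s ^ 2) / (m.factorial : ℝ) ≤ 1 := by
    rw [div_le_one hfac]
    have h1 : ∑ s : Perm (Fin m), omS V e s ^ 2 ≤ ∑ s : Perm (Fin m), (1 : ℝ) := by
      refine Finset.sum_le_sum fun s _ => ?_
      have h2 := om_le hV (pmE e) (bE e s)
      have h3 : |omS V e s| ≤ 1 := h2
      rw [← sq_abs]
      nlinarith [abs_nonneg (omS V e s)]
    rw [Finset.sum_const, nsmul_eq_mul, mul_one, Finset.card_univ, Fintype.card_perm, Fintype.card_fin] at h1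
    exact h1
  have hmle := mean_sq_le hV e k
  generalize hμ : (∑ s : Perm (Fin m), omS V e s ^ 2) / (m.factorial : ℝ) = μ at hmean0 hmean1 hmle
  generalize hDD : (Module.finrank ℂ V : ℝ) = D at hD hmle ⊢
  have hkpos : (0 : ℝ) < (k : ℝ) + 1 := by positivity
  have hr2 : (1 : ℝ) / r ≤ 1 / 2 := by
    have : (2 : ℝ) ≤ r := by exact_mod_cast hr
    exact one_div_le_one_div_of_le (by norm_num) this
  have hr0 : (0 : ℝ) ≤ 1 / (r : ℝ) := by positivity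
  have hp0 : 0 ≤ 1 - 1 / (r : ℝ) - η₁ := by linarith
  have hp1 : 1 - 1 / (r : ℝ) - η₁ ≤ 1 := by linarith
  have hmain := hC m hrm (omS V e) (omS_posdef hV e) (fun s t => omS_conj hV e s t) (omS_one hV e)
    (Real.sqrt μ) (Real.sqrt_pos.mpr hmean0) (Real.sqrt_le_one.mpr hmean1)
    (by rw [hμ, Real.sq_sqrt hmean0.le]) s hs
  generalize hp : 1 - 1 / (r : ℝ) - η₁ = p at hp0 hp1 hmain
  have hM1 : (1 : ℝ) ≤ ((m : ℝ) + 1) ^ (2 ^ k) := one_le_pow₀ hm1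
  have hM2 : ((m : ℝ) + 1) ^ (2 ^ k) = ((m : ℝ) + 1) ^ ((2 : ℝ) ^ k) := by
    rw [← Real.rpow_natCast]
    push_cast
    rfl
  have hsq : Real.sqrt μ ^ p = μ ^ (p / 2) := by
    rw [Real.sqrt_eq_rpow, ← Real.rpow_mul hmean0.le]
    congr 1
    ring
  have hD0 : (0 : ℝ) < D := by linarith
  have h1 : μ ≤ D ^ (-((k : ℝ) / (k + 1))) * ((m : ℝ) + 1) ^ (2 ^ k) := by
    refine hmle.trans ?_
    rw [Real.inv_rpow hD0.le, ← Real.rpow_neg hD0.le]
    refine mul_le_mul_of_nonneg_left ?_ (by positivity)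
    refine (Real.rpow_le_rpow_of_exponent_le hM1 (?_ : (1 : ℝ) / (k + 1) ≤ 1)).trans_eq (Real.rpow_one _)
    rw [div_le_one hkpos]
    have : (0 : ℝ) ≤ (k : ℝ) := Nat.cast_nonneg k
    linarith
  have h2 : μ ^ (p / 2) ≤ D ^ (-(1 / 2) * (1 - 1 / (r : ℝ)) + η) * ((m : ℝ) + 1) ^ (2 ^ k) := by
    refine (Real.rpow_le_rpow hmean0.le h1 (by positivity)).trans ?_
    rw [Real.mul_rpow (by positivity) (by positivity), ← Real.rpow_mul hD0.le]
    refine mul_le_mul ?_ ?_ (by positivity) (by positivity)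
    · apply Real.rpow_le_rpow_of_exponent_le hD
      have h3 : (k : ℝ) / (k + 1) = 1 - 1 / ((k : ℝ) + 1) := by
        field_simp
        ring
      rw [h3]
      have h4 : 0 ≤ 1 / ((k : ℝ) + 1) := by positivity
      generalize 1 / ((k : ℝ) + 1) = ε at h4 hk
      have h5 : p = 1 - 1 / (r : ℝ) - η₁ := hp.symm
      generalize 1 / (r : ℝ) = ρ at *
      subst h5
      nlinarith [mul_nonneg h4 hη1.le, mul_nonneg h4 hr0, mul_nonneg h4 hp0]
    · refine (Real.rpow_le_rpow_of_exponent_le hM1 (?_ : p / 2 ≤ 1)).trans_eq (Real.rpow_one _)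
      linarith
  rw [hsq] at hmain
  refine hmain.trans ?_
  have h3 : C * ((m : ℝ) + 1) ^ C ≤ (|C| + 2 ^ k) * ((m : ℝ) + 1) ^ |C| := by
    calc C * ((m : ℝ) + 1) ^ C ≤ |C| * ((m : ℝ) + 1) ^ C :=
          mul_le_mul_of_nonneg_right (le_abs_self C) (by positivity)
      _ ≤ (|C| + 2 ^ k) * ((m : ℝ) + 1) ^ |C| := by
          refine mul_le_mul ?_ (Real.rpow_le_rpow_of_exponent_le hm1 (le_abs_self C)) (by positivity) (by positivity)
          have : (0 : ℝ) ≤ 2 ^ k := by positivity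
          linarith
  have h4 : ((m : ℝ) + 1) ^ (|C| + 2 ^ k) = ((m : ℝ) + 1) ^ |C| * ((m : ℝ) + 1) ^ (2 ^ k) := by
    rw [Real.rpow_add (by positivity), hM2]
  calc C * ((m : ℝ) + 1) ^ C * μ ^ (p / 2)
      ≤ (|C| + 2 ^ k) * ((m : ℝ) + 1) ^ |C| * μ ^ (p / 2) := mul_le_mul_of_nonneg_right h3 (by positivity)
    _ ≤ (|C| + 2 ^ k) * ((m : ℝ) + 1) ^ |C| * (D ^ (-(1 / 2) * (1 - 1 / (r : ℝ)) + η) * ((m : ℝ) + 1) ^ (2 ^ k)) :=
        mul_le_mul_of_nonneg_left h2 (by positivity)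
    _ = (|C| + 2 ^ k) * ((m : ℝ) + 1) ^ (|C| + 2 ^ k) * D ^ (-(1 / 2) * (1 - 1 / (r : ℝ)) + η) := by
        rw [h4]
        ring

end MPbcd198.H
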