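import Pool.Agent.Lib.MP_bcd198_co.H.Dec
import Pool.Agent.Lib.MP_bcd198_co.IfC

/-!
# MP_bcd198_co, stream H: the irreducible subspaces have different characters; the sum [3.3]
-/

set_option autoImplicit false
set_option linter.unusedSectionVars false

namespace MPbcd198.H

open Equiv

variable {Ω : Type} [Fintype Ω] [DecidableEq Ω]

/-- the representation of `Perm Ω` on an invariant subspace -/
noncomputable def repV {V : Submodule ℂ (FPM Ω)} (hV : Inv V) : Representation ℂ (Perm Ω) V where
  toFun σ := (actF σ).restrict (hV σ)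
  map_one' := by
    apply LinearMap.ext
    intro f
    apply Subtype.ext
    exact actF_one f.1
  map_mul' σ τ := by
    apply LinearMap.ext
    intro f
    apply Subtype.ext
    exact actF_mul σ τ f.1

theorem repV_apply {V : Submodule ℂ (FPM Ω)} (hV : Inv V) (σ : Perm Ω) (f : V) : ((repV hV σ f : V) : FPM Ω) = actF σ f.1 := rfl

/-- Job ChO. Proof: `isIrreducible_of`; an invariant subspace `W` of `V` gives the invariant subspace `W.map V.subtype` of `FPM Ω` contained in `V`. -/
theorem repV_irr {V : Submodule ℂ (FPM Ω)} (hV : V ∈ Irr Ω) : Representation.IsIrreducible (repV hV.2.1) := by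
  have hnt : Nontrivial V := Submodule.nontrivial_iff_ne_bot.mpr hV.1
  refine isIrreducible_of (repV hV.2.1) fun W hW => ?_
  have h1 : W.map V.subtype ≤ V := Submodule.map_subtype_le V W
  have h2 : Inv (W.map V.subtype) := by
    rintro σ f ⟨w, hw, rfl⟩
    exact ⟨repV hV.2.1 σ w, hW σ w hw, rfl⟩
  rcases hV.2.2 _ h1 h2 with h | h
  · left
    rw [eq_bot_iff]
    intro x hx
    have hx' : V.subtype x ∈ W.map V.subtype := ⟨x, hx, rfl⟩
    rw [h, Submodule.mem_bot] at hx'
    rw [Submodule.mem_bot]
    exact Subtype.ext hx'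
  · right
    rw [eq_top_iff]
    intro x _
    have hx : (x : FPM Ω) ∈ W.map V.subtype := by
      rw [h]
      exact x.2
    obtain ⟨w, hw, hwx⟩ := hx
    have : w = x := Subtype.ext hwx
    exact this ▸ hw

/-- Job ChO. Different irreducible subspaces have different characters. Proof: if the characters are equal then by `Representation.card_inv_mul_sum_char_mul_char_eq_finrank`
`finrank (IntertwiningMap (repV V) (repV W)) = finrank (IntertwiningMap (repV V) (repV V)) ≥ 1` (the identity is not zero), so there is a non zero linear map `T : V → W` that commutes with the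
action. Then `S = W.subtype ∘ T ∘ (pr V as a map to V)` is an equivariant endomorphism of `FPM Ω`, so it commutes with `pr V` (`Eqv.comm`): `S f = S (pr V f) = pr V (S f) = 0`
because `S f ∈ W` and `W` is orthogonal to `V` (`irr_orth`, `pr_eq_zero_iff`). Contradiction. -/
theorem char_ne {V W : Submodule ℂ (FPM Ω)} (hV : V ∈ Irr Ω) (hW : W ∈ Irr Ω) (hne : V ≠ W) :
    (repV hV.2.1).character ≠ (repV hW.2.1).character := by
  classical
  intro heq
  have hnt : Nontrivial V := Submodule.nontrivial_iff_ne_bot.mpr hV.1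
  have hcard : (Nat.card (Perm Ω) : ℂ) ≠ 0 := by exact_mod_cast (Nat.card_pos (α := Perm Ω)).ne'
  let _ : Invertible (Nat.card (Perm Ω) : ℂ) := invertibleOfNonzero hcard
  have hirr := repV_irr hV
  have e1 := Representation.card_inv_mul_sum_char_mul_char_eq_finrank (repV hV.2.1) (repV hW.2.1)
  have e2 := Representation.card_inv_mul_sum_char_mul_char_eq_finrank (repV hV.2.1) (repV hV.2.1)
  rw [Representation.IsIrreducible.finrank_intertwiningMap_self (repV hV.2.1)] at e2
  rw [← heq, e2] at e1
  have hfr : Module.finrank ℂ (Representation.IntertwiningMap (repV hV.2.1) (repV hW.2.1)) = 1 := by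
    exact_mod_cast e1.symm
  have hnt2 : Nontrivial (Representation.IntertwiningMap (repV hV.2.1) (repV hW.2.1)) :=
    Module.nontrivial_of_finrank_pos (R := ℂ) (by rw [hfr]; exact one_pos)
  obtain ⟨T, hT⟩ := exists_ne (0 : Representation.IntertwiningMap (repV hV.2.1) (repV hW.2.1))
  -- the equivariant endomorphism `S = T ∘ pr V`
  let PV : FPM Ω →ₗ[ℂ] V := (pr V).codRestrict V (pr_mem V)
  let S : FPM Ω →ₗ[ℂ] FPM Ω := W.subtype ∘ₗ T.toLinearMap ∘ₗ PV
  have hPV : ∀ f, ((PV f : V) : FPM Ω) = pr V f := fun f => rfl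
  have hPVact : ∀ σ f, PV (actF σ f) = repV hV.2.1 σ (PV f) := by
    intro σ f
    apply Subtype.ext
    rw [hPV, repV_apply, hPV, pr_act hV.2.1]
  have hS : Eqv S := by
    intro σ f
    have h5 : T (repV hV.2.1 σ (PV f)) = repV hW.2.1 σ (T (PV f)) :=
      Representation.IntertwiningMap.isIntertwining _ _ T σ (PV f)
    have h6 : T (PV (actF σ f)) = repV hW.2.1 σ (T (PV f)) := by rw [hPVact]; exact h5
    exact congrArg W.subtype h6
  have hzero : ∀ f, S f = 0 := by
    intro f
    have h1 : S (pr V f) = S f := by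
      change W.subtype (T (PV (pr V f))) = W.subtype (T (PV f))
      have : PV (pr V f) = PV f := by
        apply Subtype.ext
        rw [hPV, hPV, pr_pr]
      rw [this]
    have h2 : S (pr V f) = pr V (S f) := hS.comm (pr_eqv hV.2.1) f
    rw [← h1, h2, pr_eq_zero_iff]
    intro g hg
    exact irr_orth hV hW hne g hg (S f) (T (PV f)).2
  apply hT
  apply Representation.IntertwiningMap.ext
  apply LinearMap.ext
  intro v
  apply Subtype.ext
  have h3 := hzero (v : FPM Ω)
  have h4 : PV (v : FPM Ω) = v := by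
    apply Subtype.ext
    rw [hPV, pr_of_mem v.2]
  change ((T v : W) : FPM Ω) = 0
  rw [← h4]
  exact h3

/-- Job ChO. [3.3] Proof: `chars_sum` for the set `S` of the characters of the `V ∈ I` (injective by `char_ne`); `(χ 1).re = finrank V` (`Representation.char_one`). -/
theorem sum_bound (s : ℝ) (hs : 0 < s) : ∃ C : ℝ,
    ∀ (Ω : Type) [Fintype Ω] [DecidableEq Ω] (I : Finset (Submodule ℂ (FPM Ω))),
      (∀ V ∈ I, V ∈ Irr Ω) → ∑ V ∈ I, (Module.finrank ℂ V : ℝ) ^ (-s) ≤ C := by
  classical
  obtain ⟨C, hC⟩ := chars_sum s hs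
  refine ⟨C, fun Ω _ _ I hI => ?_⟩
  let ch : Submodule ℂ (FPM Ω) → (Perm Ω → ℂ) := fun V =>
    if hV : V ∈ Irr Ω then (repV hV.2.1).character else 0
  have hch : ∀ V (hV : V ∈ Irr Ω), ch V = (repV hV.2.1).character := fun V hV => dif_pos hV
  have hinj : Set.InjOn ch (I : Set (Submodule ℂ (FPM Ω))) := by
    intro V hV W hW h
    by_contra hne
    rw [hch V (hI V hV), hch W (hI W hW)] at h
    exact char_ne (hI V hV) (hI W hW) hne h
  have h1 := hC Ω (I.image ch) (by
    intro χ hχ
    obtain ⟨V, hV, rfl⟩ := Finset.mem_image.mp hχ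
    refine ⟨V, inferInstance, inferInstance, inferInstance, repV (hI V hV).2.1, repV_irr (hI V hV), fun g => ?_⟩
    rw [hch V (hI V hV)])
  rw [Finset.sum_image hinj] at h1
  refine le_trans (le_of_eq ?_) h1
  refine Finset.sum_congr rfl fun V hV => ?_
  rw [hch V (hI V hV), Representation.char_one]
  simp

end MPbcd198.H
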