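import Pool.Agent.Lib.MP_bcd198_co.H.Inv

/-!
# MP_bcd198_co, stream H: decomposition into irreducible subspaces
-/

set_option autoImplicit false
set_option linter.unusedSectionVars false

namespace MPbcd198.H

open Equiv

variable {Ω : Type} [Fintype Ω] [DecidableEq Ω]

/-- Job Dec. An irreducible subspace is contained in an invariant subspace or orthogonal to it. Proof: `pr V` and `pr W` commute, so `f ↦ pr V (pr W f)` has values in `V ⊓ W`,
which is invariant: it is `V` (then `V ≤ W`) or `⊥` (then `pr W (pr V f) = 0` for all `f`, i.e. `pr W f = 0` for `f ∈ V`, and `pr_eq_zero_iff`, `ipF_conj`). -/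
theorem irr_dich {V : Submodule ℂ (FPM Ω)} (hV : V ∈ Irr Ω) (W : Submodule ℂ (FPM Ω)) (hW : Inv W) :
    V ≤ W ∨ ∀ f ∈ V, ∀ g ∈ W, ipF f g = 0 := by
  have hI : Inv (V ⊓ W) := fun σ f hf => ⟨hV.2.1 σ f hf.1, hW σ f hf.2⟩
  rcases hV.2.2 (V ⊓ W) inf_le_left hI with h | h
  · right
    intro f hf g hg
    have h1 : pr V (pr W f) = pr W f := by
      rw [(pr_eqv hV.2.1).comm (pr_eqv hW) f, pr_of_mem hf]
    have h2 : pr W f ∈ V ⊓ W := ⟨h1 ▸ pr_mem V _, pr_mem W f⟩
    rw [h] at h2
    have h3 : pr W f = 0 := h2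
    have h4 := (pr_eq_zero_iff W f).mp h3 g hg
    rw [← ipF_conj, h4, map_zero]
  · left
    exact inf_eq_left.mp h

/-- Job Dec. Proof: `irr_dich`, `V ≤ W` implies `V = W` as `W` is irreducible and `V ≠ ⊥`. -/
theorem irr_orth {V W : Submodule ℂ (FPM Ω)} (hV : V ∈ Irr Ω) (hW : W ∈ Irr Ω) (hne : V ≠ W) : ∀ f ∈ V, ∀ g ∈ W, ipF f g = 0 := by
  rcases irr_dich hV W hW.2.1 with h | h
  · rcases hW.2.2 V h hV.2.1 with h1 | h1
    · exact absurd h1 hV.1
    · exact absurd h1 hne
  · exact h

/-- the orthogonal complement -/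
private def decOrth (V : Submodule ℂ (FPM Ω)) : Submodule ℂ (FPM Ω) where
  carrier := {g | ∀ f ∈ V, ipF f g = 0}
  add_mem' := by
    intro g g' hg hg' f hf
    rw [ipF_add_right, hg f hf, hg' f hf, add_zero]
  zero_mem' := fun f _ => ipF_zero_right f
  smul_mem' := by
    intro c g hg f hf
    rw [ipF_smul_right, hg f hf, mul_zero]

/-- Job Dec. Finiteness. Proof: the set `Irr Ω` is independent in the lattice of submodules (`sSupIndep`): an element of `V` which is in the span of the others is orthogonal to itself;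
and in a noetherian module an independent set of non zero submodules is finite (`WellFoundedGT.finite_of_sSupIndep` or similar). -/
theorem irr_finite : (Irr Ω).Finite := by
  apply WellFoundedGT.finite_of_sSupIndep
  intro V hV
  rw [Submodule.disjoint_def]
  intro f hf hf'
  have h1 : sSup (Irr Ω \ {V}) ≤ decOrth V := by
    apply sSup_le
    intro W hW g hg f' hf'
    exact irr_orth hV hW.1 (fun h => hW.2 h.symm) f' hf' g hg
  exact ipF_self_eq_zero.mp (h1 hf' f hf)

/-- Job Dec. Proof: the orthogonal complement `W` (`{g | ∀ f ∈ ⨆ V ∈ Irr Ω, V, ipF f g = 0}`, a submodule) of the sum is invariant (`ipF_actF`, the sum is invariant). If `W ≠ ⊥` it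
contains a minimal invariant subspace different from `⊥` (`WellFoundedLT` of the submodules of a finite dimensional space, or induction on the dimension); it is in `Irr Ω`, so
contained in the sum, so orthogonal to itself. So `W = ⊥`, and `f - pr S f ∈ W` for `S` the sum. -/
theorem irr_sup : (⨆ V ∈ Irr Ω, V) = ⊤ := by
  have hSV : ∀ V ∈ Irr Ω, V ≤ ⨆ V ∈ Irr Ω, V := fun V hV => le_iSup₂_of_le V hV le_rfl
  have hSinv : Inv (⨆ V ∈ Irr Ω, V) := by
    intro σ
    have h1 : (⨆ V ∈ Irr Ω, V) ≤ (⨆ V ∈ Irr Ω, V).comap (actF σ) :=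
      iSup₂_le fun V hV f hf => hSV V hV (hV.2.1 σ f hf)
    exact fun f hf => h1 hf
  generalize (⨆ V ∈ Irr Ω, V) = S at hSV hSinv ⊢
  have hWinv : Inv (decOrth S) := by
    intro σ g hg f hf
    have h1 := ipF_actF σ (actF σ⁻¹ f) g
    rw [actF_act_inv] at h1
    rw [h1]
    exact hg _ (hSinv σ⁻¹ f hf)
  have hW : decOrth S = ⊥ := by
    by_contra hne
    obtain ⟨U, hU, hmin⟩ := (wellFounded_lt (α := Submodule ℂ (FPM Ω))).has_min
      {U | U ≠ ⊥ ∧ Inv U ∧ U ≤ decOrth S} ⟨decOrth S, hne, hWinv, le_rfl⟩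
    have hUI : U ∈ Irr Ω := by
      refine ⟨hU.1, hU.2.1, ?_⟩
      intro W' hle hinv
      by_cases h0 : W' = ⊥
      · exact Or.inl h0
      · right
        by_contra h1
        exact hmin W' ⟨h0, hinv, hle.trans hU.2.2⟩ (lt_of_le_of_ne hle h1)
    apply hU.1
    rw [eq_bot_iff]
    intro f hf
    exact ipF_self_eq_zero.mp (hU.2.2 hf f (hSV U hUI hf))
  rw [eq_top_iff]
  intro f _
  have h1 : f - pr S f ∈ decOrth S := by
    intro g hg
    rw [ipF_sub_right, ← pr_symm, pr_of_mem hg, sub_self]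
  rw [hW] at h1
  have h2 : f - pr S f = 0 := h1
  rw [sub_eq_zero.mp h2]
  exact pr_mem S f

end MPbcd198.H
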