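import Pool.Agent.Lib.MP_bcd198_co.H.Act

/-!
# MP_bcd198_co, stream H: functions invariant under a pointwise stabiliser [2.4]
-/

set_option autoImplicit false
set_option linter.unusedSectionVars false

namespace MPbcd198.H

open Equiv

variable {Ω : Type} [Fintype Ω] [DecidableEq Ω]

/-- `β` is the inner part of `a` on `W`: the edges of `a` inside `W` -/
def IsInner (W : Finset Ω) (a : PMT Ω) (β : Perm Ω) : Prop :=
  ∀ x, β x = if x ∈ W ∧ a.1 x ∈ W then a.1 x else x

/-- Job Exp. Every matching has an inner part, it is an involution with support in `W`. -/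
theorem exists_inner (W : Finset Ω) (a : PMT Ω) : ∃ β : Perm Ω, IsInner W a β ∧ IsInv β ∧ β.support ⊆ W := by
  have hinv : ∀ x, (fun x => if x ∈ W ∧ a.1 x ∈ W then a.1 x else x)
      ((fun x => if x ∈ W ∧ a.1 x ∈ W then a.1 x else x) x) = x := by
    intro x
    by_cases h : x ∈ W ∧ a.1 x ∈ W
    · have h2 : a.1 x ∈ W ∧ x ∈ W := ⟨h.2, h.1⟩
      simp only [if_pos h, (a.2 x).2, if_pos h2]
    · simp only [if_neg h]
  refine ⟨⟨fun x => if x ∈ W ∧ a.1 x ∈ W then a.1 x else x, fun x => if x ∈ W ∧ a.1 x ∈ W then a.1 x else x, hinv, hinv⟩, fun x => rfl, hinv, ?_⟩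
  intro x hx
  rw [Perm.mem_support] at hx
  by_contra hxW
  exact hx (if_neg fun h => hxW h.1)

/-- Job Exp. Two matchings with the same inner part are conjugate by a permutation that fixes `W` pointwise. -/
theorem conj_of_inner (W : Finset Ω) (a b : PMT Ω) (β : Perm Ω) (ha : IsInner W a β) (hb : IsInner W b β) :
    ∃ σ : Perm Ω, (∀ x ∈ W, σ x = x) ∧ conjPM σ a = b := by
  obtain ⟨n, hn⟩ : ∃ n, n = (Finset.univ.filter fun x => a.1 x ≠ b.1 x).card := ⟨_, rfl⟩
  induction n using Nat.strong_induction_on generalizing a with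
  | _ n ih =>
  by_cases hab : ∀ x, a.1 x = b.1 x
  · refine ⟨1, fun x _ => rfl, ?_⟩
    rw [conjPM_one]
    exact Subtype.ext (Equiv.ext hab)
  -- a point where the matchings differ, whose partners are outside `W`
  obtain ⟨x, hx, hax, hbx⟩ : ∃ x, a.1 x ≠ b.1 x ∧ a.1 x ∉ W ∧ b.1 x ∉ W := by
    by_cases hW : ∃ x ∈ W, a.1 x ≠ b.1 x
    · obtain ⟨x, hxW, hx⟩ := hW
      refine ⟨x, hx, fun h => ?_, fun h => ?_⟩
      · have h1 : β x = a.1 x := by rw [ha x, if_pos ⟨hxW, h⟩]
        have h2 := hb x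
        by_cases h3 : b.1 x ∈ W
        · rw [if_pos ⟨hxW, h3⟩] at h2
          exact hx (h1.symm.trans h2)
        · rw [if_neg fun h4 => h3 h4.2] at h2
          exact (a.2 x).1 (h1.symm.trans h2)
      · have h1 : β x = b.1 x := by rw [hb x, if_pos ⟨hxW, h⟩]
        have h2 := ha x
        by_cases h3 : a.1 x ∈ W
        · rw [if_pos ⟨hxW, h3⟩] at h2
          exact hx (h2.symm.trans h1)
        · rw [if_neg fun h4 => h3 h4.2] at h2
          exact (b.2 x).1 (h1.symm.trans h2)
    · push Not at hW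
      push Not at hab
      obtain ⟨x, hx⟩ := hab
      refine ⟨x, hx, fun h => ?_, fun h => ?_⟩
      · have h1 := hW _ h
        rw [(a.2 x).2] at h1
        apply hx
        have h2 : b.1 x = b.1 (b.1 (a.1 x)) := by rw [← h1]
        rw [(b.2 (a.1 x)).2] at h2
        exact h2.symm
      · have h1 := hW _ h
        rw [(b.2 x).2] at h1
        apply hx
        have h2 : a.1 x = a.1 (a.1 (b.1 x)) := by rw [h1]
        rw [(a.2 (b.1 x)).2] at h2
        exact h2
  set τ : Perm Ω := Equiv.swap (a.1 x) (b.1 x) with hτ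
  have hτW : ∀ y ∈ W, τ y = y := by
    intro y hy
    exact Equiv.swap_apply_of_ne_of_ne (fun h => hax (h ▸ hy)) (fun h => hbx (h ▸ hy))
  have hτnW : ∀ y, y ∉ W → τ y ∉ W := by
    intro y hy
    by_cases h1 : y = a.1 x
    · rw [h1, hτ, Equiv.swap_apply_left]; exact hbx
    by_cases h2 : y = b.1 x
    · rw [h2, hτ, Equiv.swap_apply_right]; exact hax
    rw [hτ, Equiv.swap_apply_of_ne_of_ne h1 h2]; exact hy
  have hτinv : τ⁻¹ = τ := Equiv.swap_inv _ _
  have hconj : ∀ y, (conjPM τ a).1 y = τ (a.1 (τ y)) := by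
    intro y
    rw [conjPM_apply, Perm.mul_apply, Perm.mul_apply, hτinv]
  have hinner : IsInner W (conjPM τ a) β := by
    intro y
    rw [hconj]
    by_cases hy : y ∈ W
    · rw [hτW y hy]
      by_cases hay : a.1 y ∈ W
      · rw [hτW _ hay, if_pos ⟨hy, hay⟩, ha y, if_pos ⟨hy, hay⟩]
      · rw [if_neg fun h => hτnW _ hay h.2, ha y, if_neg fun h => hay h.2]
    · rw [if_neg fun h => hy h.1, ha y, if_neg fun h => hy h.1]
  have hlt : (Finset.univ.filter fun y => (conjPM τ a).1 y ≠ b.1 y).card < n := by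
    rw [hn]
    apply Finset.card_lt_card
    have hxa : x ≠ a.1 x := fun h => (a.2 x).1 h.symm
    have hxb : x ≠ b.1 x := fun h => (b.2 x).1 h.symm
    have hτx : τ x = x := Equiv.swap_apply_of_ne_of_ne hxa hxb
    refine ⟨?_, ?_⟩
    · intro y hy
      rw [Finset.mem_filter] at hy ⊢
      refine ⟨hy.1, fun hay => hy.2 ?_⟩
      rw [hconj]
      have h1 : y ≠ a.1 x := by
        rintro rfl
        rw [(a.2 x).2] at hay
        apply hx
        have h2 : b.1 x = b.1 (b.1 (a.1 x)) := by rw [← hay]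
        rw [(b.2 (a.1 x)).2] at h2
        exact h2.symm
      have h2 : y ≠ b.1 x := by
        rintro rfl
        rw [(b.2 x).2] at hay
        apply hx
        have h2 : a.1 x = a.1 (a.1 (b.1 x)) := by rw [hay]
        rw [(a.2 (b.1 x)).2] at h2
        exact h2
      have h3 : τ y = y := Equiv.swap_apply_of_ne_of_ne h1 h2
      rw [h3]
      have hyx : y ≠ x := by
        rintro rfl
        exact hx hay
      have h4 : a.1 y ≠ a.1 x := fun h => hyx (a.1.injective h)
      have h5 : a.1 y ≠ b.1 x := by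
        rw [hay]
        exact fun h => hyx (b.1.injective h)
      rw [hτ, Equiv.swap_apply_of_ne_of_ne h4 h5, hay]
    · intro hsub
      have h1 := hsub (Finset.mem_filter.mpr ⟨Finset.mem_univ x, hx⟩)
      rw [Finset.mem_filter] at h1
      apply h1.2
      rw [hconj, hτx, hτ, Equiv.swap_apply_left]
  obtain ⟨σ, hσW, hσ⟩ := ih _ hlt (conjPM τ a) hinner rfl
  refine ⟨σ * τ, ?_, ?_⟩
  · intro y hy
    rw [Perm.mul_apply, hτW y hy, hσW y hy]
  · rw [conjPM_mul, hσ]

private theorem Exp2_inner_unique {W : Finset Ω} {a : PMT Ω} {β γ : Perm Ω} (h : IsInner W a β) (h' : IsInner W a γ) : β = γ :=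
  Equiv.ext fun x => by rw [h x, h' x]

open Classical in
private theorem Exp2_fB (W : Finset Ω) (β : Perm Ω) (hs : β.support ⊆ W) (a : PMT Ω) :
    fB β a = ∑ γ ∈ Finset.univ.filter fun γ : Perm Ω => IsInv γ ∧ γ.support ⊆ W ∧ ∀ x, β x ≠ x → γ x = β x,
      if IsInner W a γ then (1 : ℂ) else 0 := by
  unfold fB
  obtain ⟨γ, hγ, hinv, hsup⟩ := exists_inner W a
  by_cases h : ∀ x, β x ≠ x → a.1 x = β x
  · rw [if_pos h]
    have hmem : γ ∈ Finset.univ.filter fun γ : Perm Ω => IsInv γ ∧ γ.support ⊆ W ∧ ∀ x, β x ≠ x → γ x = β x := by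
      rw [Finset.mem_filter]
      refine ⟨Finset.mem_univ _, hinv, hsup, fun x hx => ?_⟩
      have hxW : x ∈ W := hs (Perm.mem_support.mpr hx)
      have hbxW : a.1 x ∈ W := by
        rw [h x hx]
        exact hs (Perm.apply_mem_support.mpr (Perm.mem_support.mpr hx))
      rw [hγ x, if_pos ⟨hxW, hbxW⟩, h x hx]
    rw [Finset.sum_eq_single γ, if_pos hγ]
    · intro γ' _ hne
      exact if_neg fun h' => hne (Exp2_inner_unique h' hγ)
    · intro h'
      exact absurd hmem h'
  · rw [if_neg h]
    symm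
    apply Finset.sum_eq_zero
    intro γ' hγ'
    rw [Finset.mem_filter] at hγ'
    refine if_neg fun h' => h fun x hx => ?_
    have h1 := h' x
    have h2 : γ' x = β x := hγ'.2.2.2 x hx
    by_cases h3 : x ∈ W ∧ a.1 x ∈ W
    · rw [if_pos h3, h2] at h1
      exact h1.symm
    · rw [if_neg h3, h2] at h1
      exact absurd h1 hx

open Classical in
/-- Job Exp2. The indicator function of the matchings with inner part `β` on `W` is in the span of the `f_γ`, `γ` an involution with support in `W`. Proof by induction on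
`W.card - β.support.card`: for an involution `β` with support in `W`, `f_β` is the sum of the indicator functions of the inner parts `β'` that extend `β` (`β' x = β x` on the support of `β`), one of which is
`β` itself, the others have larger support. -/
theorem ind_mem (W : Finset Ω) (β : Perm Ω) (hβ : IsInv β) (hs : β.support ⊆ W) :
    (fun a : PMT Ω => if IsInner W a β then (1 : ℂ) else 0) ∈
      Submodule.span ℂ {f : FPM Ω | ∃ γ : Perm Ω, IsInv γ ∧ γ.support ⊆ W ∧ f = fB γ} := by
  obtain ⟨n, hn⟩ : ∃ n, n = W.card - β.support.card := ⟨_, rfl⟩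
  induction n using Nat.strong_induction_on generalizing β with
  | _ n ih =>
  set T := Finset.univ.filter fun γ : Perm Ω => IsInv γ ∧ γ.support ⊆ W ∧ ∀ x, β x ≠ x → γ x = β x with hT
  have hβT : β ∈ T := by
    rw [hT, Finset.mem_filter]
    exact ⟨Finset.mem_univ _, hβ, hs, fun x _ => rfl⟩
  have h1 : (fun a : PMT Ω => if IsInner W a β then (1 : ℂ) else 0) =
      fB β - ∑ γ ∈ T.erase β, (fun a : PMT Ω => if IsInner W a γ then (1 : ℂ) else 0) := by
    rw [eq_sub_iff_add_eq, Finset.add_sum_erase T (fun γ => (fun a : PMT Ω => if IsInner W a γ then (1 : ℂ) else 0)) hβT]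
    funext a
    rw [Finset.sum_apply, Exp2_fB W β hs a]
  rw [h1]
  refine Submodule.sub_mem _ (Submodule.subset_span ⟨β, hβ, hs, rfl⟩) (Submodule.sum_mem _ fun γ hγ => ?_)
  rw [Finset.mem_erase, hT, Finset.mem_filter] at hγ
  obtain ⟨hne, -, hinv, hsup, hext⟩ := hγ
  refine ih _ ?_ γ hinv hsup rfl
  have hlt : β.support.card < γ.support.card := by
    apply Finset.card_lt_card
    refine ⟨?_, ?_⟩
    · intro x hx
      have hx' := Perm.mem_support.mp hx
      rw [Perm.mem_support, hext x hx']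
      exact hx'
    · intro hsub
      apply hne
      ext x
      by_cases hx : β x = x
      · rw [hx]
        by_contra h2
        exact Perm.mem_support.mp (hsub (Perm.mem_support.mpr h2)) hx
      · exact hext x hx
  have hle : γ.support.card ≤ W.card := Finset.card_le_card hsup
  omega

/-- Job Exp2. [2.4] Proof: by `conj_of_inner` the value `f a` depends only on the inner part of `a`, so `f` is a linear combination of the indicator functions of `ind_mem`. -/
theorem mem_Fil_of_fixed (W : Finset Ω) (f : FPM Ω) (hf : ∀ σ : Perm Ω, (∀ x ∈ W, σ x = x) → actF σ f = f) :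
    f ∈ Fil Ω W.card := by
  classical
  have hspan : Submodule.span ℂ {f : FPM Ω | ∃ γ : Perm Ω, IsInv γ ∧ γ.support ⊆ W ∧ f = fB γ} ≤ Fil Ω W.card := by
    apply Submodule.span_mono
    rintro g ⟨γ, hγ, hsup, rfl⟩
    refine ⟨γ, hγ, ?_, rfl⟩
    have := Finset.card_le_card hsup
    omega
  have hval : ∀ (β : Perm Ω) (a b : PMT Ω), IsInner W a β → IsInner W b β → f a = f b := by
    intro β a b ha hb
    obtain ⟨σ, hσW, hσ⟩ := conj_of_inner W a b β ha hb
    rw [← hσ]
    conv_rhs => rw [← hf σ hσW]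
    rw [actF_conj]
  set c : Perm Ω → ℂ := fun β => if h : ∃ a : PMT Ω, IsInner W a β then f h.choose else 0 with hc
  have hsum : f = ∑ β ∈ Finset.univ.filter (fun β : Perm Ω => IsInv β ∧ β.support ⊆ W),
      c β • (fun a : PMT Ω => if IsInner W a β then (1 : ℂ) else 0) := by
    funext a
    rw [Finset.sum_apply]
    obtain ⟨β, hβ, hinv, hsup⟩ := exists_inner W a
    rw [Finset.sum_eq_single β]
    · rw [Pi.smul_apply, if_pos hβ, smul_eq_mul, mul_one, hc]
      have h : ∃ a : PMT Ω, IsInner W a β := ⟨a, hβ⟩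
      simp only [dif_pos h]
      exact hval β a _ hβ h.choose_spec
    · intro γ _ hne
      rw [Pi.smul_apply, if_neg fun h' => hne (Exp2_inner_unique h' hβ), smul_zero]
    · intro h
      exact absurd (Finset.mem_filter.mpr ⟨Finset.mem_univ _, hinv, hsup⟩) h
  rw [hsum]
  refine Submodule.sum_mem _ fun β hβ => Submodule.smul_mem _ _ (hspan ?_)
  have h1 := (Finset.mem_filter.mp hβ).2
  exact ind_mem W β h1.1 h1.2

end MPbcd198.H
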