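import Pool.Agent.Lib.MP_bcd198_co.H.Act

/-!
# MP_bcd198_co, stream H: pairs of perfect matchings: two-colourings, normal form
-/

set_option autoImplicit false
set_option linter.unusedSectionVars false

namespace MPbcd198.H

open Equiv

/-- `f` is a proper two-colouring of the union of the matchings `a` and `b` -/
def IsCol {Ω : Type} (a b : PMT Ω) (f : Ω → Bool) : Prop := ∀ x, f (a.1 x) = !f x ∧ f (b.1 x) = !f x

/-- the standard matching `(i,false) - (i,true)` transported by `e` -/
def pmE {m : ℕ} {Ω : Type} (e : Fin m × Bool ≃ Ω) : PMT Ω :=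
  ⟨(e.symm.trans (Equiv.prodCongr (Equiv.refl (Fin m)) Equiv.boolNot)).trans e, fun x => by
    obtain ⟨⟨i, t⟩, rfl⟩ := e.surjective x
    refine ⟨?_, ?_⟩
    · intro h
      have h1 := e.injective h
      simp at h1
    · simp⟩

theorem pmE_apply {m : ℕ} {Ω : Type} (e : Fin m × Bool ≃ Ω) (i : Fin m) (t : Bool) : (pmE e).1 (e (i, t)) = e (i, !t) := by
  simp [pmE]

/-- the permutation `s` acting on the points `e (i, true)` only -/
def tE {m : ℕ} {Ω : Type} (e : Fin m × Bool ≃ Ω) (s : Perm (Fin m)) : Perm Ω :=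
  (e.symm.trans ⟨fun p => (if p.2 = true then s p.1 else p.1, p.2), fun p => (if p.2 = true then s⁻¹ p.1 else p.1, p.2),
    fun p => by obtain ⟨i, t⟩ := p; cases t <;> simp, fun p => by obtain ⟨i, t⟩ := p; cases t <;> simp⟩).trans e

theorem tE_true {m : ℕ} {Ω : Type} (e : Fin m × Bool ≃ Ω) (s : Perm (Fin m)) (i : Fin m) : tE e s (e (i, true)) = e (s i, true) := by
  simp [tE]

theorem tE_false {m : ℕ} {Ω : Type} (e : Fin m × Bool ≃ Ω) (s : Perm (Fin m)) (i : Fin m) : tE e s (e (i, false)) = e (i, false) := by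
  simp [tE]

/-- the matching `(i,false) - (s i,true)` transported by `e` -/
def bE {m : ℕ} {Ω : Type} (e : Fin m × Bool ≃ Ω) (s : Perm (Fin m)) : PMT Ω := conjPM (tE e s) (pmE e)

/-- Job Gelf. -/
theorem bE_false {m : ℕ} {Ω : Type} (e : Fin m × Bool ≃ Ω) (s : Perm (Fin m)) (i : Fin m) : (bE e s).1 (e (i, false)) = e (s i, true) := by
  change tE e s ((pmE e).1 ((tE e s)⁻¹ (e (i, false)))) = _
  have h1 : (tE e s)⁻¹ (e (i, false)) = e (i, false) := by
    rw [Perm.inv_eq_iff_eq, tE_false]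
  rw [h1, pmE_apply, Bool.not_false, tE_true]

/-- Job Gelf. -/
theorem bE_true {m : ℕ} {Ω : Type} (e : Fin m × Bool ≃ Ω) (s : Perm (Fin m)) (i : Fin m) : (bE e s).1 (e (s i, true)) = e (i, false) := by
  have h := ((bE e s).2 (e (i, false))).2
  rwa [bE_false] at h

private theorem gelf_conj_zpow {Ω : Type} (a b : PMT Ω) (k : ℤ) :
    a.1 * (a.1 * b.1) ^ k = (a.1 * b.1) ^ (-k) * a.1 := by
  have ha : a.1 * a.1 = 1 := Equiv.ext fun x => (a.2 x).2
  have hb : b.1 * b.1 = 1 := Equiv.ext fun x => (b.2 x).2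
  have h1 : a.1 * (a.1 * b.1) * a.1⁻¹ = (a.1 * b.1)⁻¹ := by
    have ha' : a.1⁻¹ = a.1 := inv_eq_of_mul_eq_one_left ha
    have hb' : b.1⁻¹ = b.1 := inv_eq_of_mul_eq_one_left hb
    rw [mul_inv_rev, ha', hb', ← mul_assoc, ha, one_mul]
  have h2 : a.1 * (a.1 * b.1) ^ k * a.1⁻¹ = ((a.1 * b.1)⁻¹) ^ k := by
    rw [← h1, conj_zpow]
  rw [zpow_neg, ← inv_zpow, ← h2]
  group

private theorem gelf_not_same {Ω : Type} (a b : PMT Ω) (y : Ω) :
    ¬ (a.1 * b.1).SameCycle y (a.1 y) := by
  rintro ⟨i, hi⟩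
  have hz : ∀ k : ℤ, ∀ x, a.1 (((a.1 * b.1) ^ k) x) = ((a.1 * b.1) ^ (-k)) (a.1 x) := by
    intro k x
    have := congrArg (fun u : Perm Ω => u x) (gelf_conj_zpow a b k)
    simpa using this
  rcases Int.even_or_odd' i with ⟨k, hk | hk⟩
  · apply (a.2 (((a.1 * b.1) ^ k) y)).1
    rw [hz, ← hi, hk, ← Perm.mul_apply, ← zpow_add]
    congr 2
    ring
  · apply (b.2 (((a.1 * b.1) ^ k) y)).1
    have h1 : b.1 (((a.1 * b.1) ^ k) y) = a.1 (((a.1 * b.1) ^ (k + 1)) y) := by
      rw [add_comm k 1, zpow_add, zpow_one, Perm.mul_apply, Perm.mul_apply, (a.2 _).2]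
    rw [h1, hz, ← hi, hk, ← Perm.mul_apply, ← zpow_add]
    congr 2
    ring

/-- Job Gelf. Every pair of perfect matchings has a proper two-colouring. Proof. Let `c = a b` (as permutations). In every orbit of the group generated by `a` and `b` choose a
representative `x` (or: on the quotient by the relation `SameCycle c y z ∨ SameCycle c (a y) z`, an equivalence relation because `a c a = c⁻¹`); `f y = true` if and only if `y` is in the
`c`-orbit of its representative. The point is that `y` and `a y` are never in the same `c`-orbit: if `a y = c ^ (2 i) y` then `a (c ^ i y) = c ^ (-i) a y = c ^ i y`, a fixed point of `a`;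
if `a y = c ^ (2 i + 1) y` then `a (c ^ (i + 1) y) = c ^ (-i - 1) a y = c ^ i y`, and `c ^ (i + 1) y = a (b (c ^ i y))`, so `b (c ^ i y) = c ^ i y`, a fixed point of `b`.
And `b y = a (c y)`, so `b y` and `a y` are in the same `c`-orbit (`c⁻¹ a y = a c y = b y`). -/
theorem exists_col {Ω : Type} (a b : PMT Ω) : ∃ f : Ω → Bool, IsCol a b f := by
  classical
  let Q := Quotient (Perm.SameCycle.setoid (a.1 * b.1))
  let q : Ω → Q := fun y => Quotient.mk _ y
  have hq : ∀ y z : Ω, q y = q z ↔ (a.1 * b.1).SameCycle y z := fun y z => Quotient.eq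
  have hne : ∀ y, q y ≠ q (a.1 y) := fun y h => gelf_not_same a b y ((hq _ _).1 h)
  have hb : ∀ y, q (b.1 y) = q (a.1 y) := by
    intro y
    refine (hq _ _).2 ⟨1, ?_⟩
    rw [zpow_one, Perm.mul_apply, (b.2 y).2]
  have hab : ∀ y, q (a.1 (b.1 y)) = q y := by
    intro y
    refine ((hq _ _).2 ⟨1, ?_⟩).symm
    rw [zpow_one, Perm.mul_apply]
  have hR : ∀ u v : Q, u ≠ v → (decide (WellOrderingRel u v) = !decide (WellOrderingRel v u)) := by
    intro u v huv
    rcases trichotomous_of (WellOrderingRel (α := Q)) u v with h | h | h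
    · have h' : ¬ WellOrderingRel v u := fun h' => asymm_of (WellOrderingRel (α := Q)) h h'
      simp [h, h']
    · exact absurd h huv
    · have h' : ¬ WellOrderingRel u v := fun h' => asymm_of (WellOrderingRel (α := Q)) h h'
      simp [h, h']
  refine ⟨fun y => decide (WellOrderingRel (q y) (q (a.1 y))), fun y => ⟨?_, ?_⟩⟩
  · change decide (WellOrderingRel (q (a.1 y)) (q (a.1 (a.1 y)))) =
      !decide (WellOrderingRel (q y) (q (a.1 y)))
    rw [(a.2 y).2]
    exact hR _ _ (hne y).symm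
  · change decide (WellOrderingRel (q (b.1 y)) (q (a.1 (b.1 y)))) =
      !decide (WellOrderingRel (q y) (q (a.1 y)))
    rw [hb, hab]
    exact hR _ _ (hne y).symm

/-- the points of colour `false`, twice -/
private theorem Gelf2_bij {Ω : Type} {a b : PMT Ω} {f : Ω → Bool} (hf : IsCol a b f) :
    Function.Bijective (fun p : {x : Ω // f x = false} × Bool => if p.2 = true then a.1 p.1.1 else p.1.1) := by
  have hval : ∀ (x : {x : Ω // f x = false}) (t : Bool), f (if t = true then a.1 x.1 else x.1) = t := by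
    intro x t
    cases t
    · simp [x.2]
    · simp [(hf x.1).1, x.2]
  constructor
  · rintro ⟨x, t⟩ ⟨y, u⟩ h
    have h1 : t = u := by
      have := congrArg f h
      simp only [hval] at this
      exact this
    subst h1
    congr 1
    apply Subtype.ext
    cases t
    · simpa using h
    · simpa using h
  · intro x
    rcases hx : f x with _ | _
    · exact ⟨(⟨x, hx⟩, false), by simp⟩
    · refine ⟨(⟨a.1 x, by rw [(hf x).1, hx]; rfl⟩, true), ?_⟩
      simp [(a.2 x).2]

private theorem Gelf2_card {Ω : Type} [Fintype Ω] {a b : PMT Ω} {f : Ω → Bool} (hf : IsCol a b f) :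
    Fintype.card Ω = 2 * Fintype.card {x : Ω // f x = false} := by
  rw [← Fintype.card_congr (Equiv.ofBijective _ (Gelf2_bij hf)), Fintype.card_prod, Fintype.card_bool, mul_comm]

/-- Job Gelf2. Normal form. Proof: `a` exchanges the sets `f = false` and `f = true`, so the first has `m` elements; number it: `e (i, false)`; put `e (i, true) = a (e (i, false))`. Then
`b (e (i, false))` has colour `true`, so it is `e (s i, true)` for a unique `s i`, and `s` is injective. Finally `bE e s` and `b` agree on both colours (`bE_false`, `bE_true`). -/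
theorem normal_form {Ω : Type} [Fintype Ω] {m : ℕ} (hm : Fintype.card Ω = 2 * m) (a b : PMT Ω) (f : Ω → Bool) (hf : IsCol a b f) :
    ∃ (e : Fin m × Bool ≃ Ω) (s : Perm (Fin m)), a = pmE e ∧ b = bE e s ∧ ∀ p, f (e p) = p.2 := by
  classical
  have hcard := Gelf2_card hf
  have hA : Fintype.card {x : Ω // f x = false} = Fintype.card (Fin m) := by
    rw [Fintype.card_fin]
    omega
  let e₀ : Fin m ≃ {x : Ω // f x = false} := (Fintype.equivOfCardEq hA).symm
  let e : Fin m × Bool ≃ Ω := (Equiv.prodCongr e₀ (Equiv.refl Bool)).trans (Equiv.ofBijective _ (Gelf2_bij hf))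
  have hef : ∀ i, e (i, false) = (e₀ i).1 := fun i => rfl
  have het : ∀ i, e (i, true) = a.1 (e₀ i).1 := fun i => rfl
  have hfe : ∀ p : Fin m × Bool, f (e p) = p.2 := by
    rintro ⟨i, t⟩
    cases t
    · rw [hef]
      exact (e₀ i).2
    · rw [het, (hf _).1, (e₀ i).2]
      rfl
  have hs : ∀ i, ∃ j, b.1 (e (i, false)) = e (j, true) := by
    intro i
    obtain ⟨⟨j, t⟩, hj⟩ := e.surjective (b.1 (e (i, false)))
    have h1 : f (b.1 (e (i, false))) = true := by
      rw [(hf _).2, hfe]
      rfl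
    rw [← hj, hfe] at h1
    simp only at h1
    subst h1
    exact ⟨j, hj.symm⟩
  choose s₀ hs₀ using hs
  have hinj : Function.Injective s₀ := by
    intro i j hij
    have h1 : b.1 (e (i, false)) = b.1 (e (j, false)) := by rw [hs₀, hs₀, hij]
    have h2 := e.injective (b.1.injective h1)
    exact congrArg Prod.fst h2
  let s : Perm (Fin m) := Equiv.ofBijective s₀ (Finite.injective_iff_bijective.1 hinj)
  have hss : ∀ i, s i = s₀ i := fun i => rfl
  refine ⟨e, s, ?_, ?_, hfe⟩
  · apply Subtype.ext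
    ext x
    obtain ⟨⟨i, t⟩, rfl⟩ := e.surjective x
    rw [pmE_apply]
    cases t
    · rw [hef]
      exact (het i).symm
    · rw [het, (a.2 _).2]
      exact (hef i).symm
  · apply Subtype.ext
    ext x
    obtain ⟨⟨i, t⟩, rfl⟩ := e.surjective x
    cases t
    · rw [bE_false, hs₀, hss]
    · obtain ⟨j, rfl⟩ := s.surjective i
      rw [bE_true, hss, ← hs₀, (b.2 _).2]

/-- the permutation `u` acting diagonally -/
private def Gelf2_diag {m : ℕ} {Ω : Type} (e : Fin m × Bool ≃ Ω) (u : Perm (Fin m)) : Perm Ω :=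
  (e.symm.trans (Equiv.prodCongr u (Equiv.refl Bool))).trans e

private theorem Gelf2_diag_apply {m : ℕ} {Ω : Type} (e : Fin m × Bool ≃ Ω) (u : Perm (Fin m)) (i : Fin m) (t : Bool) :
    Gelf2_diag e u (e (i, t)) = e (u i, t) := by
  simp [Gelf2_diag]

/-- Job Gelf2. Conjugating `s`. Proof: the permutation `u` acting diagonally, `e (i, t) ↦ e (u i, t)`; check on the points `e (i, false)`, `e (i, true)` (`conjPM_eq`). -/
theorem conj_diag {m : ℕ} {Ω : Type} (e : Fin m × Bool ≃ Ω) (s u : Perm (Fin m)) :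
    ∃ σ : Perm Ω, conjPM σ (pmE e) = pmE e ∧ conjPM σ (bE e s) = bE e (u * s * u⁻¹) := by
  refine ⟨Gelf2_diag e u, conjPM_eq fun x => ?_, conjPM_eq fun x => ?_⟩
  · obtain ⟨⟨i, t⟩, rfl⟩ := e.surjective x
    rw [Gelf2_diag_apply, pmE_apply, pmE_apply, Gelf2_diag_apply]
  · obtain ⟨⟨i, t⟩, rfl⟩ := e.surjective x
    cases t
    · rw [Gelf2_diag_apply, bE_false, bE_false, Gelf2_diag_apply]
      simp
    · obtain ⟨j, rfl⟩ := s.surjective i
      have h1 : u (s j) = (u * s * u⁻¹) (u j) := by simp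
      rw [Gelf2_diag_apply, bE_true, Gelf2_diag_apply, h1, bE_true]

/-- Job Gelf2. The Gelfand property: every pair of perfect matchings is conjugate to the reversed pair. Proof: `exists_col`, `normal_form` (`Fintype.card Ω` is even as `f` and `a`
give a bijection; or `card = 2 m` from the colouring); `tE e s⁻¹` maps `(pmE e, bE e s)` to `(bE e s⁻¹, pmE e)`, and `s⁻¹` is conjugate to `s` in the symmetric group
(`Equiv.Perm.isConj_iff_cycleType_eq`, `Equiv.Perm.cycleType_inv`), so `conj_diag` maps `(pmE e, bE e s)` to `(pmE e, bE e s⁻¹)`. -/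
theorem swap {Ω : Type} [Fintype Ω] (a b : PMT Ω) : ∃ σ : Perm Ω, conjPM σ a = b ∧ conjPM σ b = a := by
  classical
  obtain ⟨f, hf⟩ := exists_col a b
  obtain ⟨e, s, ha, hb, -⟩ := normal_form (Gelf2_card hf) a b f hf
  subst ha
  subst hb
  have hc : IsConj s s⁻¹ := by
    rw [Equiv.Perm.isConj_iff_cycleType_eq, Equiv.Perm.cycleType_inv]
  obtain ⟨u, hu⟩ := isConj_iff.1 hc
  obtain ⟨σ₁, h1, h2⟩ := conj_diag e s u
  rw [hu] at h2
  refine ⟨tE e s * σ₁, ?_, ?_⟩
  · rw [conjPM_mul, h1]
    rfl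
  · rw [conjPM_mul, h2]
    refine conjPM_eq fun x => ?_
    obtain ⟨⟨i, t⟩, rfl⟩ := e.surjective x
    cases t
    · rw [tE_false, pmE_apply, bE_false, tE_true]
      simp
    · obtain ⟨j, rfl⟩ := (s⁻¹ : Perm _).surjective i
      rw [bE_true, tE_true, tE_false, pmE_apply]
      simp

/-- Job Gelf2. Proof: `swap`. -/
theorem exists_conj {Ω : Type} [Fintype Ω] (a b : PMT Ω) : ∃ σ : Perm Ω, conjPM σ a = b := by
  obtain ⟨σ, h, -⟩ := swap a b
  exact ⟨σ, h⟩

private theorem Gelf3_mp_inv {α : Type} (s : Perm α) (i : α) :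
    Function.minimalPeriod (⇑(s⁻¹)) i = Function.minimalPeriod (⇑s) i := by
  rw [Function.minimalPeriod_eq_minimalPeriod_iff]
  intro n
  unfold Function.IsPeriodicPt Function.IsFixedPt
  rw [Equiv.Perm.iterate_eq_pow, Equiv.Perm.iterate_eq_pow, inv_pow, Equiv.Perm.inv_eq_iff_eq]
  exact eq_comm

/-- Job Gelf3. `pmE e * bE e s` acts on `e (i, true)` as `s⁻¹` and on `e (i, false)` as `s`. -/
theorem rel_pmE_bE {m r : ℕ} {Ω : Type} (e : Fin m × Bool ≃ Ω) (s : Perm (Fin m)) :
    Rel r (pmE e).1 (bE e s).1 ↔ ∀ i, Function.minimalPeriod (⇑s) i = r := by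
  have hf : ∀ (n : ℕ) (i : Fin m), (⇑((pmE e).1 * (bE e s).1))^[n] (e (i, false)) = e ((⇑s)^[n] i, false) := by
    intro n i
    induction n with
    | zero => rfl
    | succ n ih =>
      rw [Function.iterate_succ_apply', ih, Function.iterate_succ_apply', Perm.mul_apply, bE_false, pmE_apply]
      rfl
  have ht : ∀ (n : ℕ) (i : Fin m), (⇑((pmE e).1 * (bE e s).1))^[n] (e (i, true)) = e ((⇑(s⁻¹))^[n] i, true) := by
    intro n i
    induction n with
    | zero => rfl
    | succ n ih =>
      rw [Function.iterate_succ_apply', ih, Function.iterate_succ_apply', Perm.mul_apply]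
      obtain ⟨j, hj⟩ := s.surjective ((⇑(s⁻¹))^[n] i)
      rw [← hj, bE_true, pmE_apply]
      simp
  have hmf : ∀ i, Function.minimalPeriod (⇑((pmE e).1 * (bE e s).1)) (e (i, false)) = Function.minimalPeriod (⇑s) i := by
    intro i
    rw [Function.minimalPeriod_eq_minimalPeriod_iff]
    intro n
    unfold Function.IsPeriodicPt Function.IsFixedPt
    rw [hf, e.injective.eq_iff]
    simp
  have hmt : ∀ i, Function.minimalPeriod (⇑((pmE e).1 * (bE e s).1)) (e (i, true)) = Function.minimalPeriod (⇑s) i := by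
    intro i
    rw [← Gelf3_mp_inv s i, Function.minimalPeriod_eq_minimalPeriod_iff]
    intro n
    unfold Function.IsPeriodicPt Function.IsFixedPt
    rw [ht, e.injective.eq_iff]
    simp
  constructor
  · intro h i
    rw [← hmf]
    exact h _
  · intro h x
    obtain ⟨⟨i, t⟩, rfl⟩ := e.surjective x
    cases t
    · rw [hmf]
      exact h i
    · rw [hmt]
      exact h i

private theorem Gelf3_cycleType {m r : ℕ} {s : Perm (Fin m)} (hr : 2 ≤ r)
    (h : ∀ i, Function.minimalPeriod (⇑s) i = r) : s.cycleType = Multiset.replicate (m / r) r := by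
  have hall : ∀ n ∈ s.cycleType, n = r := by
    intro n hn
    rw [Equiv.Perm.cycleType_def, Multiset.mem_map] at hn
    obtain ⟨c, hc, rfl⟩ := hn
    have hc' : c ∈ s.cycleFactorsFinset := hc
    have hcyc : c.IsCycle := (Equiv.Perm.mem_cycleFactorsFinset_iff.1 hc').1
    obtain ⟨x, hx⟩ : c.support.Nonempty := by
      obtain ⟨y, hy, -⟩ := id hcyc
      exact ⟨y, Equiv.Perm.mem_support.2 hy⟩
    have hcx : c = s.cycleOf x := Equiv.Perm.cycle_is_cycleOf hx hc'
    have hpow : ∀ k : ℕ, c ^ k = 1 ↔ r ∣ k := by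
      intro k
      rw [hcyc.pow_eq_one_iff' (Equiv.Perm.mem_support.1 hx), ← h x, ← Function.isPeriodicPt_iff_minimalPeriod_dvd]
      unfold Function.IsPeriodicPt Function.IsFixedPt
      rw [Equiv.Perm.iterate_eq_pow, hcx, Equiv.Perm.cycleOf_pow_apply_self]
    change c.support.card = r
    rw [← hcyc.orderOf]
    exact Nat.dvd_antisymm (orderOf_dvd_of_pow_eq_one ((hpow r).2 dvd_rfl)) ((hpow _).1 (pow_orderOf_eq_one c))
  have hrep := Multiset.eq_replicate.2 ⟨rfl, hall⟩
  have hsupp : s.support = Finset.univ := by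
    ext i
    simp only [Equiv.Perm.mem_support, Finset.mem_univ, iff_true]
    intro hi
    have h1 := Function.minimalPeriod_eq_one_iff_isFixedPt.2 (show Function.IsFixedPt (⇑s) i from hi)
    rw [h i] at h1
    omega
  have hsum := Equiv.Perm.sum_cycleType s
  rw [hsupp, Finset.card_univ, Fintype.card_fin, hrep, Multiset.sum_replicate, smul_eq_mul] at hsum
  rw [hrep]
  congr 1
  exact (Nat.div_eq_of_eq_mul_left (by omega) hsum.symm).symm

/-- Job Gelf3. Two permutations of `Fin m` all of whose cycles have length `r` are conjugate. Proof: if `r = 1` both are the identity, if `r ≥ 2` the cycle type is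
`Multiset.replicate (m / r) r` (all entries are `r` and the sum is `m`, there are no fixed points), `Equiv.Perm.isConj_iff_cycleType_eq`; if `r = 0` then `m = 0`. -/
theorem isConj_of_period {m r : ℕ} (s s' : Perm (Fin m)) (h : ∀ i, Function.minimalPeriod (⇑s) i = r)
    (h' : ∀ i, Function.minimalPeriod (⇑s') i = r) : IsConj s s' := by
  rcases Nat.lt_or_ge r 2 with hr | hr
  · have hs : ∀ t : Perm (Fin m), (∀ i, Function.minimalPeriod (⇑t) i = r) → t = 1 := by
      intro t ht
      ext i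
      have h1 : 0 < Function.minimalPeriod (⇑t) i := Function.minimalPeriod_pos_of_mem_periodicPts
        (Function.Injective.mem_periodicPts t.injective i)
      have h2 : Function.minimalPeriod (⇑t) i = 1 := by
        have := ht i
        omega
      have h3 := Function.minimalPeriod_eq_one_iff_isFixedPt.1 h2
      rw [h3.eq]
      rfl
    rw [hs s h, hs s' h']
  · rw [Equiv.Perm.isConj_iff_cycleType_eq, Gelf3_cycleType hr h, Gelf3_cycleType hr h']

/-- Job Gelf3. Proof: normal forms of `(a,b)` and `(a,b')`, `rel_pmE_bE`, `isConj_of_period`; if `b = bE e s`, `b' = bE e' s'` with `a = pmE e = pmE e'` and `s' = u s u⁻¹` then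
`σ : e (i,t) ↦ e' (u i, t)` works (`conjPM_eq`). -/
theorem rel_conj {Ω : Type} [Fintype Ω] {r : ℕ} (a b b' : PMT Ω) (h : Rel r a.1 b.1) (h' : Rel r a.1 b'.1) :
    ∃ σ : Perm Ω, conjPM σ a = a ∧ conjPM σ b = b' := by
  classical
  obtain ⟨f, hf⟩ := exists_col a b
  obtain ⟨f', hf'⟩ := exists_col a b'
  have hc := Gelf2_card hf
  obtain ⟨e, s, ha, hb, -⟩ := normal_form hc a b f hf
  obtain ⟨e', s', ha', hb', -⟩ := normal_form hc a b' f' hf'
  rw [ha, hb, rel_pmE_bE] at h
  rw [ha', hb', rel_pmE_bE] at h'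
  obtain ⟨u, hu⟩ := isConj_iff.1 (isConj_of_period s s' h h')
  let σ : Perm Ω := (e.symm.trans (Equiv.prodCongr u (Equiv.refl Bool))).trans e'
  have hσ : ∀ i t, σ (e (i, t)) = e' (u i, t) := by
    intro i t
    simp [σ]
  refine ⟨σ, conjPM_eq fun x => ?_, conjPM_eq fun x => ?_⟩
  · obtain ⟨⟨i, t⟩, rfl⟩ := e.surjective x
    rw [hσ]
    conv_lhs => rw [ha']
    conv_rhs => rw [ha]
    rw [pmE_apply, pmE_apply, hσ]
  · obtain ⟨⟨i, t⟩, rfl⟩ := e.surjective x
    rw [hσ, hb, hb']
    cases t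
    · rw [bE_false, bE_false, hσ, ← hu]
      simp
    · obtain ⟨j, rfl⟩ := s.surjective i
      have h1 : u (s j) = s' (u j) := by rw [← hu]; simp
      rw [h1, bE_true, bE_true, hσ]

end MPbcd198.H
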