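import Pool.Agent.Lib.MP_bcd198_co.H.Proj
import Pool.Agent.Lib.MP_bcd198_co.H.Gelf

/-!
# MP_bcd198_co, stream H: equivariant operators commute
-/

set_option autoImplicit false
set_option linter.unusedSectionVars false

namespace MPbcd198.H

open Equiv

/-- equivariant endomorphism -/
def Eqv {Ω : Type} (T : FPM Ω →ₗ[ℂ] FPM Ω) : Prop := ∀ σ f, T (actF σ f) = actF σ (T f)

variable {Ω : Type} [Fintype Ω] [DecidableEq Ω]

/-- Job Inv. The kernel is invariant. Proof: `dl (conjPM σ a) = actF σ (dl a)` (`actF_dl`) and `actF_conj`. -/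
theorem Eqv.ker_conj {T : FPM Ω →ₗ[ℂ] FPM Ω} (hT : Eqv T) (σ : Perm Ω) (a b : PMT Ω) :
    T (dl (conjPM σ a)) (conjPM σ b) = T (dl a) b := by
  rw [← actF_dl, hT, actF_conj]

/-- Job Inv. The kernel is symmetric. Proof: `swap` and `ker_conj`. -/
theorem Eqv.ker_symm {T : FPM Ω →ₗ[ℂ] FPM Ω} (hT : Eqv T) (a b : PMT Ω) : T (dl a) b = T (dl b) a := by
  obtain ⟨σ, h1, h2⟩ := swap a b
  have h := hT.ker_conj σ a b
  rw [h1, h2] at h
  exact h.symm

/-- Job Inv. -/
theorem Eqv.mul {S T : FPM Ω →ₗ[ℂ] FPM Ω} (hS : Eqv S) (hT : Eqv T) : Eqv (S ∘ₗ T) := by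
  intro σ f
  simp only [LinearMap.comp_apply]
  rw [hT, hS]

/-- Job Inv. Equivariant endomorphisms commute. Proof: by `map_ext` compare the kernels: `S (T (dl a)) b = ∑ c, T (dl a) c * S (dl c) b` (`map_apply_eq`), and all kernels
(also those of `S ∘ T`) are symmetric, so this is `(S ∘ T) (dl b) a = ∑ c, T (dl b) c * S (dl c) a = ∑ c, S (dl a) c * T (dl c) b = T (S (dl a)) b`. -/
theorem Eqv.comm {S T : FPM Ω →ₗ[ℂ] FPM Ω} (hS : Eqv S) (hT : Eqv T) (f : FPM Ω) : S (T f) = T (S f) := by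
  classical
  have key : S ∘ₗ T = T ∘ₗ S := by
    apply map_ext
    intro a
    funext b
    rw [(hS.mul hT).ker_symm a b, LinearMap.comp_apply, LinearMap.comp_apply, map_apply_eq S, map_apply_eq T]
    refine Finset.sum_congr rfl fun c _ => ?_
    rw [hT.ker_symm b c, hS.ker_symm c a]
    ring
  exact LinearMap.congr_fun key f

/-- Job Inv. Proof: `pr_act`. -/
theorem pr_eqv {V : Submodule ℂ (FPM Ω)} (hV : Inv V) : Eqv (pr V) := by
  intro σ f
  exact pr_act hV σ f

/-- Job Inv. The Markov operator is equivariant. Proof: `b ↦ conjPM σ b` is a bijection from the `b` with `Rel r a b` to those with `Rel r (conjPM σ a) b`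
(`σ a σ⁻¹ σ b σ⁻¹ = σ (a b) σ⁻¹`, the minimal period of `σ c σ⁻¹` at `σ x` is that of `c` at `x`). -/
theorem KOp_eqv (r : ℕ) : Eqv (KOp Ω r) := by
  classical
  intro σ f
  have hrel : ∀ a b : PMT Ω, Rel r ((conjPM σ).symm a).1 ((conjPM σ).symm b).1 ↔ Rel r a.1 b.1 := by
    intro a b
    have hmul : ((conjPM σ).symm a).1 * ((conjPM σ).symm b).1 = σ⁻¹ * (a.1 * b.1) * σ := by
      rw [conjPM_symm_apply, conjPM_symm_apply]
      group
    have hsc : Function.Semiconj (⇑σ) (⇑(((conjPM σ).symm a).1 * ((conjPM σ).symm b).1)) (⇑(a.1 * b.1)) := by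
      intro x
      rw [hmul]
      simp [Perm.mul_apply]
    have hper : ∀ x, Function.minimalPeriod (⇑(((conjPM σ).symm a).1 * ((conjPM σ).symm b).1)) x =
        Function.minimalPeriod (⇑(a.1 * b.1)) (σ x) := by
      intro x
      apply Nat.dvd_antisymm
      · apply Function.IsPeriodicPt.minimalPeriod_dvd
        have h1 := Function.isPeriodicPt_minimalPeriod (⇑(a.1 * b.1)) (σ x)
        unfold Function.IsPeriodicPt Function.IsFixedPt at h1 ⊢
        have h2 := (hsc.iterate_right (Function.minimalPeriod (⇑(a.1 * b.1)) (σ x))) x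
        rw [h1] at h2
        exact σ.injective h2
      · apply Function.IsPeriodicPt.minimalPeriod_dvd
        exact (Function.isPeriodicPt_minimalPeriod _ x).map hsc
    constructor
    · intro h x
      obtain ⟨y, rfl⟩ := σ.surjective x
      rw [← hper]
      exact h y
    · intro h x
      rw [hper]
      exact h _
  funext a
  rw [actF_apply]
  show (((Finset.univ.filter fun b : PMT Ω => Rel r a.1 b.1).card : ℕ) : ℂ)⁻¹ *
    ∑ b ∈ Finset.univ.filter fun b : PMT Ω => Rel r a.1 b.1, actF σ f b =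
    (((Finset.univ.filter fun b : PMT Ω => Rel r ((conjPM σ).symm a).1 b.1).card : ℕ) : ℂ)⁻¹ *
    ∑ b ∈ Finset.univ.filter fun b : PMT Ω => Rel r ((conjPM σ).symm a).1 b.1, f b
  have himg : (Finset.univ.filter fun b : PMT Ω => Rel r ((conjPM σ).symm a).1 b.1) =
      (Finset.univ.filter fun b : PMT Ω => Rel r a.1 b.1).map (conjPM σ).symm.toEmbedding := by
    ext b
    simp only [Finset.mem_filter, Finset.mem_univ, true_and, Finset.mem_map, Equiv.coe_toEmbedding]
    constructor
    · intro h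
      refine ⟨conjPM σ b, ?_, Equiv.symm_apply_apply _ _⟩
      rw [← hrel, Equiv.symm_apply_apply]
      exact h
    · rintro ⟨c, hc, rfl⟩
      rw [hrel]
      exact hc
  rw [himg, Finset.card_map, Finset.sum_map]
  rfl

/-- Job Inv. Self-adjoint equivariant endomorphisms have real kernels; here for projections. Proof: `pr V (dl a) b = ipF (dl b) (pr V (dl a)) = ipF (pr V (dl b)) (dl a) =
conj (pr V (dl b) a)` (`ipF_dl_left`, `ipF_dl_right`, `pr_symm`), and `pr V (dl b) a = pr V (dl a) b` by `ker_symm`. -/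
theorem pr_real {V : Submodule ℂ (FPM Ω)} (hV : Inv V) (a b : PMT Ω) : (((pr V (dl a) b).re : ℝ) : ℂ) = pr V (dl a) b := by
  have h1 : pr V (dl a) b = (starRingEnd ℂ) (pr V (dl b) a) := by
    rw [← ipF_dl_left b (pr V (dl a)), ← pr_symm, ipF_dl_right]
  rw [(pr_eqv hV).ker_symm b a] at h1
  exact (Complex.conj_eq_iff_re.mp h1.symm)

end MPbcd198.H
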