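import Pool.Agent.Lib.MP_bcd198_co.H.Exp
import Pool.Agent.Lib.MP_bcd198_co.H.ChO

/-!
# MP_bcd198_co, stream H: irreducible subspaces orthogonal to the low levels have large dimension [3.4]
-/

set_option autoImplicit false
set_option linter.unusedSectionVars false

namespace MPbcd198.H

open Equiv

/-- Job Lev. A function on which the pointwise stabiliser of a small set acts by the sign is zero. Proof: every matching `a` has an edge `{x, a x}` outside `W` (at most `W.card` edges meet `W`, there are `m`); the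
transposition of `x` and `a x` fixes `a`, has sign `-1` and fixes `W` pointwise, so `f a = - f a`. -/
theorem sign_zero {Ω : Type} [Fintype Ω] [DecidableEq Ω] (W : Finset Ω) (hW : 2 * W.card < Fintype.card Ω) (f : FPM Ω)
    (hf : ∀ σ : Perm Ω, (∀ x ∈ W, σ x = x) → actF σ f = ((Perm.sign σ : ℤ) : ℂ) • f) : f = 0 := by
  funext a
  obtain ⟨x, hx⟩ : ∃ x, x ∉ W ∪ W.image a.1 := by
    by_contra hcon
    push Not at hcon
    have h1 : (Finset.univ : Finset Ω) ⊆ W ∪ W.image a.1 := fun x _ => hcon x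
    have h2 := Finset.card_le_card h1
    have h3 := Finset.card_union_le W (W.image a.1)
    have h4 : (W.image a.1).card ≤ W.card := Finset.card_image_le
    rw [Finset.card_univ] at h2
    omega
  rw [Finset.mem_union, not_or] at hx
  have hxW : x ∉ W := hx.1
  have haxW : a.1 x ∉ W := by
    intro h
    exact hx.2 (Finset.mem_image.2 ⟨a.1 x, h, (a.2 x).2⟩)
  have hne : a.1 x ≠ x := (a.2 x).1
  have haa : ∀ y, a.1 (a.1 y) = y := fun y => (a.2 y).2
  have hconj : conjPM (Equiv.swap x (a.1 x)) a = a := by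
    refine conjPM_eq fun y => ?_
    by_cases h1 : y = x
    · subst h1
      rw [Equiv.swap_apply_left, haa, Equiv.swap_apply_right]
    · by_cases h2 : y = a.1 x
      · subst h2
        rw [Equiv.swap_apply_right, haa, Equiv.swap_apply_left]
      · rw [Equiv.swap_apply_of_ne_of_ne h1 h2, Equiv.swap_apply_of_ne_of_ne]
        · intro h
          apply h2
          rw [← haa y, h]
        · intro h
          exact h1 (a.1.injective h)
  have h1 := hf (Equiv.swap x (a.1 x)) fun z hz => Equiv.swap_apply_of_ne_of_ne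
    (fun h => hxW (h ▸ hz)) (fun h => haxW (h ▸ hz))
  rw [Perm.sign_swap hne.symm] at h1
  have h2 := congrFun h1 a
  have h3 : actF (Equiv.swap x (a.1 x)) f a = f a := by
    have h5 := actF_conj (Equiv.swap x (a.1 x)) f a
    rwa [hconj] at h5
  rw [h3, Pi.smul_apply, smul_eq_mul] at h2
  push_cast at h2
  have h4 : (2 : ℂ) * f a = 0 := by linear_combination h2
  simpa using h4

private theorem Lev_Fil_mono {Ω : Type} [Fintype Ω] [DecidableEq Ω] {i j : ℕ} (h : i ≤ j) :
    Fil Ω i ≤ Fil Ω j := by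
  unfold Fil
  refine Submodule.span_mono ?_
  rintro f ⟨β, h1, h2, h3⟩
  exact ⟨β, h1, by omega, h3⟩

/-- Job Lev. [3.4] Proof: `K₁`, `n₀` from `rep_small K`, `J = K₁`, `m₀ = n₀ + K₁ + 1`. If `finrank V < m ^ K` then `finrank V < (card Ω) ^ K`, so by `rep_small` applied to `repV` (`repV_irr`) there is a non zero
`f ∈ V` on which the pointwise stabiliser of `W`, `W.card ≤ K₁`, acts trivially or by the sign. In the first case `f ∈ Fil Ω W.card ≤ Fil Ω J` by `mem_Fil_of_fixed`, so `ipF f f = 0`, `f = 0`. In the second case `sign_zero`. -/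
theorem level (K : ℕ) : ∃ J m₀ : ℕ,
    ∀ (Ω : Type) [Fintype Ω] [DecidableEq Ω] (m : ℕ), Fintype.card Ω = 2 * m → m₀ ≤ m →
      ∀ V ∈ Irr Ω, (∀ f ∈ V, ∀ g ∈ Fil Ω J, ipF f g = 0) →
        (m : ℝ) ^ K ≤ (Module.finrank ℂ V : ℝ) := by
  obtain ⟨K₁, n₀, hrep⟩ := rep_small K
  refine ⟨K₁, n₀ + K₁ + 1, ?_⟩
  intro Ω _ _ m hcard hm V hV horth
  by_contra hlt
  push Not at hlt
  have h1 : (Module.finrank ℂ V : ℝ) < (Fintype.card Ω : ℝ) ^ K := by
    refine lt_of_lt_of_le hlt ?_
    refine pow_le_pow_left₀ (Nat.cast_nonneg m) ?_ K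
    rw [hcard]
    push_cast
    linarith [Nat.cast_nonneg (α := ℝ) m]
  obtain ⟨W, hWc, hcase⟩ := hrep Ω (by omega) V (repV hV.2.1) (repV_irr hV) h1
  rcases hcase with ⟨v, hv, hfix⟩ | ⟨v, hv, hsgn⟩
  · apply hv
    have h2 : v.1 ∈ Fil Ω W.card := by
      refine mem_Fil_of_fixed W v.1 fun σ hσ => ?_
      have h3 := congrArg Subtype.val (hfix σ hσ)
      rw [repV_apply] at h3
      exact h3
    have h4 := horth v.1 v.2 v.1 (Lev_Fil_mono hWc h2)
    exact Subtype.ext (ipF_self_eq_zero.1 h4)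
  · apply hv
    have h2 : v.1 = 0 := by
      refine sign_zero W (by omega) v.1 fun σ hσ => ?_
      have h3 := congrArg Subtype.val (hsgn σ hσ)
      rw [repV_apply] at h3
      exact h3
    exact Subtype.ext h2

end MPbcd198.H
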