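import Pool.Agent.Lib.MP_bcd198_co.H.Bnd
import Pool.Agent.Lib.MP_bcd198_co.H.Lev

/-!
# MP_bcd198_co, stream H: the statements of IfH
-/

set_option autoImplicit false

namespace MPbcd198.H

open Equiv

/-- [3.1] decomposition into irreducible subspaces -/
theorem irr_decomp (Ω : Type) [Fintype Ω] [DecidableEq Ω] :
    (Irr Ω).Finite ∧
    (∀ V ∈ Irr Ω, ∀ W ∈ Irr Ω, V ≠ W → ∀ f ∈ V, ∀ g ∈ W, ipF f g = 0) ∧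
    (⨆ V ∈ Irr Ω, V) = ⊤ ∧
    (∀ V ∈ Irr Ω, ∀ W : Submodule ℂ (FPM Ω), Inv W → V ≤ W ∨ ∀ f ∈ V, ∀ g ∈ W, ipF f g = 0) :=
  ⟨irr_finite, fun _ hV _ hW hne => irr_orth hV hW hne, irr_sup, fun _ hV W hW => irr_dich hV W hW⟩

/-- [3.2] Theorem B1 -/
theorem irr_bound (r : ℕ) (hr : 2 ≤ r) (η : ℝ) (hη : 0 < η) : ∃ C : ℝ,
    ∀ (Ω : Type) [Fintype Ω] [DecidableEq Ω] (m : ℕ), Fintype.card Ω = 2 * m → r ∣ m →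
      ∀ V ∈ Irr Ω, ∃ ω : ℂ, (∀ f ∈ V, KOp Ω r f = ω • f) ∧
        ‖ω‖ ≤ C * ((m : ℝ) + 1) ^ C *
          (Module.finrank ℂ V : ℝ) ^ (-(1 / 2) * (1 - 1 / (r : ℝ)) + η) :=
  bound r hr η hη

/-- [3.3] -/
theorem irr_sum (s : ℝ) (hs : 0 < s) : ∃ C : ℝ,
    ∀ (Ω : Type) [Fintype Ω] [DecidableEq Ω] (I : Finset (Submodule ℂ (FPM Ω))),
      (∀ V ∈ I, V ∈ Irr Ω) → ∑ V ∈ I, (Module.finrank ℂ V : ℝ) ^ (-s) ≤ C :=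
  sum_bound s hs

/-- [3.4] -/
theorem irr_level (K : ℕ) : ∃ J m₀ : ℕ,
    ∀ (Ω : Type) [Fintype Ω] [DecidableEq Ω] (m : ℕ), Fintype.card Ω = 2 * m → m₀ ≤ m →
      ∀ V ∈ Irr Ω, (∀ f ∈ V, ∀ g ∈ Fil Ω J, ipF f g = 0) →
        (m : ℝ) ^ K ≤ (Module.finrank ℂ V : ℝ) :=
  level K

end MPbcd198.H
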