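import Pool.Agent.Lib.MP_bcd198_co.H.Sch

/-!
# MP_bcd198_co, stream H: the positive definite class function on `S_m`; the mean square
-/

set_option autoImplicit false
set_option linter.unusedSectionVars false

namespace MPbcd198.H

open Equiv

variable {Ω : Type} [Fintype Ω] [DecidableEq Ω] {m : ℕ}

/-- the spherical function as a function on `S_m` -/
noncomputable def omS (V : Submodule ℂ (FPM Ω)) (e : Fin m × Bool ≃ Ω) (s : Perm (Fin m)) : ℝ := om V (pmE e) (bE e s)

private theorem Mod_tE_mul (e : Fin m × Bool ≃ Ω) (s t : Perm (Fin m)) : tE e (s * t) = tE e s * tE e t := by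
  ext x
  obtain ⟨⟨i, b⟩, rfl⟩ := e.surjective x
  cases b
  · rw [Perm.mul_apply, tE_false, tE_false, tE_false]
  · rw [Perm.mul_apply, tE_true, tE_true, tE_true, Perm.mul_apply]

private theorem Mod_tE_one (e : Fin m × Bool ≃ Ω) : tE e (1 : Perm (Fin m)) = 1 := by
  ext x
  obtain ⟨⟨i, b⟩, rfl⟩ := e.surjective x
  cases b
  · rw [tE_false, Perm.one_apply]
  · rw [tE_true, Perm.one_apply, Perm.one_apply]

private theorem Mod_bE_one (e : Fin m × Bool ≃ Ω) : bE e (1 : Perm (Fin m)) = pmE e := by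
  rw [bE, Mod_tE_one, conjPM_one]

private theorem Mod_conj_bE (e : Fin m × Bool ≃ Ω) (s t : Perm (Fin m)) : conjPM (tE e s) (bE e t) = bE e (s * t) := by
  rw [bE, bE, Mod_tE_mul, conjPM_mul]

/-- Job Mod. `om V (bE e s) (bE e t) = omS V e (s⁻¹ * t)`: conjugate by `tE e s⁻¹` (`tE` is multiplicative, `bE e t = conjPM (tE e t) (pmE e)`). So `om_posdef` applies with `g s = bE e s`. -/
theorem omS_posdef {V : Submodule ℂ (FPM Ω)} (hV : V ∈ Irr Ω) (e : Fin m × Bool ≃ Ω) (c : Perm (Fin m) → ℝ) :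
    0 ≤ ∑ s, ∑ t, c s * c t * omS V e (s⁻¹ * t) := by
  have h := om_posdef hV (fun s => bE e s) c
  have h2 : ∀ s t, om V (bE e s) (bE e t) = omS V e (s⁻¹ * t) := by
    intro s t
    rw [← om_conj hV (tE e s⁻¹), Mod_conj_bE, Mod_conj_bE, inv_mul_cancel, Mod_bE_one, omS]
  simpa only [h2] using h

/-- Job Mod. Proof: `conj_diag`, `om_conj`. -/
theorem omS_conj {V : Submodule ℂ (FPM Ω)} (hV : V ∈ Irr Ω) (e : Fin m × Bool ≃ Ω) (s t : Perm (Fin m)) : omS V e (t * s * t⁻¹) = omS V e s := by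
  obtain ⟨σ, h1, h2⟩ := conj_diag e s t
  rw [omS, omS, ← h2]
  conv_lhs => rw [← h1]
  exact om_conj hV σ _ _

/-- Job Mod. `bE e 1 = pmE e`. -/
theorem omS_one {V : Submodule ℂ (FPM Ω)} (hV : V ∈ Irr Ω) (e : Fin m × Bool ≃ Ω) : omS V e 1 = 1 := by
  rw [omS, Mod_bE_one, om_self hV]

/-- number of the colourings of `Fin m` with colours in `κ` that are constant on the cycles of `s` -/
noncomputable def Ncol (κ : Type) [Fintype κ] (s : Perm (Fin m)) : ℕ :=
  open Classical in (Finset.univ.filter fun φ : Fin m → κ => ∀ i, φ (s i) = φ i).card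

private theorem Mod_Ncol (κ : Type) [Fintype κ] (s : Perm (Fin m)) :
    Ncol κ s = Nat.card {φ : Fin m → κ // ∀ i, φ (s i) = φ i} := by
  classical
  unfold Ncol
  rw [Nat.card_eq_fintype_card, Fintype.card_subtype]

/-- Job Mod. `(2 ^ l) ^ k = (2 ^ k) ^ l`. Proof: a colouring with colours in `Fin k → Bool` is a family of `k` colourings with colours in `Bool`. -/
theorem Ncol_pow (k : ℕ) (s : Perm (Fin m)) : Ncol (Fin k → Bool) s = Ncol Bool s ^ k := by
  rw [Mod_Ncol, Mod_Ncol]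
  let E : {φ : Fin m → (Fin k → Bool) // ∀ i, φ (s i) = φ i} ≃ (Fin k → {φ : Fin m → Bool // ∀ i, φ (s i) = φ i}) :=
    { toFun := fun φ j => ⟨fun i => φ.1 i j, fun i => congrFun (φ.2 i) j⟩
      invFun := fun ψ => ⟨fun i j => (ψ j).1 i, fun i => funext fun j => (ψ j).2 i⟩
      left_inv := fun φ => rfl
      right_inv := fun ψ => rfl }
  rw [Nat.card_congr E, Nat.card_pi, Finset.prod_const, Finset.card_univ, Fintype.card_fin]

/-- Job Mod. Constant colourings. -/
theorem Ncol_pos (s : Perm (Fin m)) : 0 < Ncol Bool s := by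
  rw [Mod_Ncol]
  have : Nonempty {φ : Fin m → Bool // ∀ i, φ (s i) = φ i} := ⟨⟨fun _ => false, fun _ => rfl⟩⟩
  exact Nat.card_pos

/-- Job Burn. Burnside: `∑ s, #{φ : φ ∘ s = φ} = m! * #orbits` (`MulAction.sum_card_fixedBy_eq_card_orbits_mul_card_group` for the action of `Perm (Fin m)` on `Fin m → κ`, or directly: count the
pairs `(s, φ)`; for each `φ` the number of the `s` with `φ ∘ s = φ` is `m! / #orbit of φ`), and an orbit is determined by the numbers `#{i : φ i = x} ≤ m`, `x : κ`. -/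
theorem burnside (κ : Type) [Fintype κ] (m : ℕ) : ∑ s : Perm (Fin m), Ncol κ s ≤ m.factorial * (m + 1) ^ Fintype.card κ := by
  classical
  let _ : MulAction (Perm (Fin m)) (Fin m → κ) := arrowAction
  have hsm : ∀ (g : Perm (Fin m)) (φ : Fin m → κ) (i : Fin m), (g • φ) i = φ (g⁻¹ i) := fun g φ i => rfl
  have _ : Fintype (MulAction.orbitRel.Quotient (Perm (Fin m)) (Fin m → κ)) := Fintype.ofFinite _
  have h1 := MulAction.sum_card_fixedBy_eq_card_orbits_mul_card_group (Perm (Fin m)) (Fin m → κ)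
  have h2 : ∀ s : Perm (Fin m), Ncol κ s = Fintype.card (MulAction.fixedBy (Fin m → κ) s) := by
    intro s
    unfold Ncol
    rw [Fintype.card_subtype]
    congr 1
    ext φ
    simp only [Finset.mem_filter, Finset.mem_univ, true_and, MulAction.mem_fixedBy]
    constructor
    · intro h
      funext i
      rw [hsm, ← h (s⁻¹ i)]
      simp
    · intro h i
      have h3 := congrFun h (s i)
      rw [hsm] at h3
      simp at h3
      exact h3.symm
  rw [Finset.sum_congr rfl fun s _ => h2 s, h1, Fintype.card_perm, Fintype.card_fin, mul_comm]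
  refine Nat.mul_le_mul_left _ ?_
  -- the invariant of an orbit
  let F : (Fin m → κ) → (κ → Fin (m + 1)) := fun φ x => 
    ⟨(Finset.univ.filter fun i => φ i = x).card, Nat.lt_succ_of_le ((Finset.card_filter_le _ _).trans (by simp))⟩
  have hF : ∀ φ ψ : Fin m → κ, MulAction.orbitRel (Perm (Fin m)) (Fin m → κ) φ ψ → F φ = F ψ := by
    intro φ ψ h
    rw [MulAction.orbitRel_apply] at h
    obtain ⟨g, hg⟩ := h
    funext x
    apply Fin.ext
    show (Finset.univ.filter fun i => φ i = x).card = (Finset.univ.filter fun i => ψ i = x).card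
    have hg' : g • ψ = φ := hg
    rw [← hg']
    refine Finset.card_bij (fun i _ => g⁻¹ i) ?_ ?_ ?_
    · intro i hi
      simpa [hsm] using hi
    · intro i _ j _ h
      exact (g⁻¹).injective h
    · intro i hi
      refine ⟨g i, ?_, by simp⟩
      simpa [hsm] using hi
  let G : MulAction.orbitRel.Quotient (Perm (Fin m)) (Fin m → κ) → (κ → Fin (m + 1)) := 
    fun q => Quotient.lift F hF q
  have hG : Function.Injective G := by
    intro q r
    induction q using Quotient.inductionOn with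
    | _ φ =>
    induction r using Quotient.inductionOn with
    | _ ψ =>
    intro h
    have h' : F φ = F ψ := h
    apply Quotient.sound
    show MulAction.orbitRel (Perm (Fin m)) (Fin m → κ) φ ψ
    rw [MulAction.orbitRel_apply]
    have he : ∀ x : κ, Nonempty ({ i // ψ i = x } ≃ { i // φ i = x }) := by
      intro x
      have h3 := congrArg Fin.val (congrFun h' x)
      rw [← Fintype.card_eq, Fintype.card_subtype, Fintype.card_subtype]
      exact h3.symm
    refine ⟨Equiv.ofFiberEquiv fun x => Classical.choice (he x), ?_⟩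
    funext i
    show ((Equiv.ofFiberEquiv fun x => Classical.choice (he x) : Perm (Fin m)) • ψ) i = φ i
    rw [hsm]
    obtain ⟨j, rfl⟩ := (Equiv.ofFiberEquiv fun x => Classical.choice (he x) : Perm (Fin m)).surjective i
    have h4 : φ ((Equiv.ofFiberEquiv fun x => Classical.choice (he x) : Perm (Fin m)) j) = ψ j :=
      Equiv.ofFiberEquiv_map (f := ψ) (g := φ) (fun x => Classical.choice (he x)) j
    rw [h4]
    exact congrArg ψ (Equiv.symm_apply_apply _ j)
  calc _ ≤ Fintype.card (κ → Fin (m + 1)) := Fintype.card_le_of_injective G hG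
    _ = _ := by simp

/-- the permutation of `Ω` that exchanges `e (i, false)` and `e (i, true)` if `ε i = true` -/
def flipE (e : Fin m × Bool ≃ Ω) (ε : Fin m → Bool) : Perm Ω :=
  (e.symm.trans ⟨fun p => (p.1, xor (ε p.1) p.2), fun p => (p.1, xor (ε p.1) p.2),
    fun p => by simp, fun p => by simp⟩).trans e

private theorem Fib_flip_apply (e : Fin m × Bool ≃ Ω) (ε : Fin m → Bool) (i : Fin m) (t : Bool) :
    flipE e ε (e (i, t)) = e (i, xor (ε i) t) := by
  simp [flipE]

private theorem Fib_flip_flip (e : Fin m × Bool ≃ Ω) (ε : Fin m → Bool) (x : Ω) : flipE e ε (flipE e ε x) = x := by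
  obtain ⟨⟨i, t⟩, rfl⟩ := e.surjective x
  rw [Fib_flip_apply, Fib_flip_apply]
  simp

private theorem Fib_flip_pmE (e : Fin m × Bool ≃ Ω) (ε : Fin m → Bool) : conjPM (flipE e ε) (pmE e) = pmE e := by
  apply conjPM_eq
  intro x
  obtain ⟨⟨i, t⟩, rfl⟩ := e.surjective x
  rw [pmE_apply, Fib_flip_apply, Fib_flip_apply, pmE_apply]
  congr 2
  cases ε i <;> cases t <;> rfl

/-- the edges of `conjPM (flipE e ε) (bE e s)` -/
private theorem Fib_edge (e : Fin m × Bool ≃ Ω) (s : Perm (Fin m)) (ε : Fin m → Bool) (i : Fin m) :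
    (conjPM (flipE e ε) (bE e s)).1 (e (i, ε i)) = e (s i, !ε (s i)) := by
  have h := conjPM_val (flipE e ε) (bE e s) (e (i, false))
  rw [bE_false, Fib_flip_apply, Fib_flip_apply] at h
  simpa using h

private theorem Fib_col_flip {a b : PMT Ω} {σ : Perm Ω} (f : Ω → Bool) :
    IsCol (conjPM σ a) (conjPM σ b) f ↔ IsCol a b (fun x => f (σ x)) := by
  constructor
  · intro h x
    have h1 := h (σ x)
    rw [conjPM_val, conjPM_val] at h1
    exact h1
  · intro h y
    obtain ⟨x, rfl⟩ := σ.surjective y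
    rw [conjPM_val, conjPM_val]
    exact h x

private theorem Fib_isCol_iff (e : Fin m × Bool ≃ Ω) (s : Perm (Fin m)) (g : Ω → Bool) :
    IsCol (pmE e) (bE e s) g ↔ ∃ φ : Fin m → Bool, (∀ i, φ (s i) = φ i) ∧ ∀ i t, g (e (i, t)) = xor (φ i) t := by
  constructor
  · intro h
    have h0 : ∀ i t, g (e (i, t)) = xor (g (e (i, false))) t := by
      intro i t
      cases t
      · simp
      · have h1 := (h (e (i, false))).1
        rw [pmE_apply] at h1
        rw [Bool.not_false] at h1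
        rw [h1]
        cases g (e (i, false)) <;> rfl
    refine ⟨fun i => g (e (i, false)), fun i => ?_, h0⟩
    have h1 := (h (e (i, false))).2
    rw [bE_false, h0 (s i) true] at h1
    simp only
    revert h1
    cases g (e (s i, false)) <;> cases g (e (i, false)) <;> simp
  · rintro ⟨φ, hφ, hg⟩ x
    obtain ⟨⟨i, t⟩, rfl⟩ := e.surjective x
    refine ⟨?_, ?_⟩
    · rw [pmE_apply, hg, hg]
      cases φ i <;> cases t <;> rfl
    · cases t
      · rw [bE_false, hg, hg, hφ]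
        cases φ i <;> rfl
      · obtain ⟨j, rfl⟩ := s.surjective i
        rw [bE_true, hg, hg, hφ]
        cases φ j <;> rfl

/-- Job Fib. `flipE` fixes `pmE e`, so the spherical function does not see it. -/
theorem om_flip {V : Submodule ℂ (FPM Ω)} (hV : V ∈ Irr Ω) (e : Fin m × Bool ≃ Ω) (s : Perm (Fin m)) (ε : Fin m → Bool) :
    om V (pmE e) (conjPM (flipE e ε) (bE e s)) = omS V e s := by
  unfold omS
  conv_lhs => rw [← Fib_flip_pmE e ε]
  exact om_conj hV _ _ _

open Classical in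
/-- Job Fib. The two-colourings of `pmE e` and `conjPM (flipE e ε) (bE e s)` correspond to the `s`-invariant colourings `Fin m → Bool`: `f (flipE e ε (e (i, t))) = xor (φ i) t`. -/
theorem card_col (e : Fin m × Bool ≃ Ω) (s : Perm (Fin m)) (ε : Fin m → Bool) :
    (Finset.univ.filter fun f : Ω → Bool => IsCol (pmE e) (conjPM (flipE e ε) (bE e s)) f).card = Ncol Bool s := by
  have hN : Ncol Bool s = (Finset.univ.filter fun φ : Fin m → Bool => ∀ i, φ (s i) = φ i).card := by
    unfold Ncol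
    congr!
  rw [hN]
  have hcol : ∀ f : Ω → Bool, IsCol (pmE e) (conjPM (flipE e ε) (bE e s)) f ↔
      ∃ φ : Fin m → Bool, (∀ i, φ (s i) = φ i) ∧ ∀ i t, f (flipE e ε (e (i, t))) = xor (φ i) t := by
    intro f
    conv_lhs => rw [← Fib_flip_pmE e ε]
    rw [Fib_col_flip, Fib_isCol_iff]
  refine Finset.card_bij' (fun f _ => fun i => f (flipE e ε (e (i, false))))
    (fun φ _ => fun x => xor (φ (e.symm (flipE e ε x)).1) (e.symm (flipE e ε x)).2) ?_ ?_ ?_ ?_
  · intro f hf
    obtain ⟨φ, hφ, hf2⟩ := (hcol f).mp (Finset.mem_filter.mp hf).2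
    rw [Finset.mem_filter]
    refine ⟨Finset.mem_univ _, fun i => ?_⟩
    simp only [hf2, hφ]
  · intro φ hφ
    rw [Finset.mem_filter] at hφ
    rw [Finset.mem_filter]
    refine ⟨Finset.mem_univ _, (hcol _).mpr ⟨φ, hφ.2, fun i t => ?_⟩⟩
    simp only [Fib_flip_flip, Equiv.symm_apply_apply]
  · intro f hf
    obtain ⟨φ, hφ, hf2⟩ := (hcol f).mp (Finset.mem_filter.mp hf).2
    funext x
    obtain ⟨⟨i, t⟩, hx⟩ := e.surjective (flipE e ε x)
    have hx2 : x = flipE e ε (e (i, t)) := by rw [hx, Fib_flip_flip]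
    simp only [← hx, Equiv.symm_apply_apply]
    rw [hx2, hf2, hf2]
    simp
  · intro φ hφ
    funext i
    simp only [Fib_flip_flip, Equiv.symm_apply_apply, Bool.xor_false]

open Classical in
/-- Job Fib. For each `b` the pairs `(s, ε)` with `conjPM (flipE e ε) (bE e s) = b` inject into the two-colourings of `(pmE e, b)`: `(s, ε) ↦ (f with f (e (i, t)) = xor (ε i) t)`; the
colouring determines `ε`, and then `bE e s = conjPM (flipE e ε)⁻¹ b` determines `s` (`bE_false`). In the other direction every two-colouring of `(pmE e, b)` comes from a pair, so the numbers are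
equal (needed for the surjectivity in `card_PMT_le`). -/
theorem card_fib (e : Fin m × Bool ≃ Ω) (b : PMT Ω) :
    (Finset.univ.filter fun p : Perm (Fin m) × (Fin m → Bool) => conjPM (flipE e p.2) (bE e p.1) = b).card =
      (Finset.univ.filter fun f : Ω → Bool => IsCol (pmE e) b f).card := by
  refine Finset.card_bij (fun p _ => fun x => xor (p.2 (e.symm x).1) (e.symm x).2) ?_ ?_ ?_
  · intro p hp
    have hp2 := (Finset.mem_filter.mp hp).2
    refine Finset.mem_filter.mpr ⟨Finset.mem_univ _, ?_⟩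
    rw [← hp2]
    conv => rw [← Fib_flip_pmE e p.2]
    rw [Fib_col_flip, Fib_isCol_iff]
    refine ⟨fun _ => false, fun _ => rfl, fun i t => ?_⟩
    simp only [Fib_flip_apply, Equiv.symm_apply_apply]
    cases p.2 i <;> cases t <;> rfl
  · intro p hp q hq hpq
    have hp2 := (Finset.mem_filter.mp hp).2
    have hq2 := (Finset.mem_filter.mp hq).2
    have h1 : p.2 = q.2 := by
      funext i
      have h2 := congrFun hpq (e (i, false))
      simpa using h2
    refine Prod.ext ?_ h1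
    ext i
    have h3 := Fib_edge e p.1 p.2 i
    have h4 := Fib_edge e q.1 q.2 i
    rw [hp2] at h3
    rw [hq2, ← h1, h3] at h4
    have h5 := e.injective h4
    exact congrArg (fun z => ((z : Fin m × Bool).1 : ℕ)) h5
  · intro f hf
    have hf2 := (Finset.mem_filter.mp hf).2
    have h0 : ∀ i t, f (e (i, t)) = xor (f (e (i, false))) t := by
      intro i t
      cases t
      · simp
      · have h1 := (hf2 (e (i, false))).1
        rw [pmE_apply, Bool.not_false] at h1
        rw [h1]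
        cases f (e (i, false)) <;> rfl
    obtain ⟨ε, hε⟩ : ∃ ε : Fin m → Bool, ∀ i, ε i = f (e (i, false)) := ⟨_, fun i => rfl⟩
    -- the conjugated matching
    obtain ⟨b', hb'⟩ : ∃ b', b' = conjPM (flipE e ε) b := ⟨_, rfl⟩
    have hbb : conjPM (flipE e ε) b' = b := by
      rw [hb', ← conjPM_mul]
      have h1 : flipE e ε * flipE e ε = 1 := Equiv.ext fun x => Fib_flip_flip e ε x
      rw [h1, conjPM_one]
    have hcol' : ∀ i t, (e.symm (b'.1 (e (i, t)))).2 = !t := by
      intro i t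
      obtain ⟨⟨j, u⟩, hj⟩ := e.surjective (b.1 (e (i, xor (ε i) t)))
      have h1 : b'.1 (e (i, t)) = e (j, xor (ε j) u) := by
        have h2 := conjPM_val (flipE e ε) b (e (i, xor (ε i) t))
        rw [← hb', Fib_flip_apply, ← hj, Fib_flip_apply] at h2
        rw [← h2]
        congr 2
        simp
      rw [h1, Equiv.symm_apply_apply]
      simp only
      have h3 := (hf2 (e (i, xor (ε i) t))).2
      rw [← hj, h0 j, h0 i, ← hε, ← hε] at h3
      rw [h3]
      cases ε i <;> cases t <;> rfl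
    have hfal : ∀ i, ∃ j, b'.1 (e (i, false)) = e (j, true) := by
      intro i
      refine ⟨(e.symm (b'.1 (e (i, false)))).1, ?_⟩
      rw [← Equiv.symm_apply_eq]
      exact Prod.ext rfl (hcol' i false)
    choose s0 hs0 using hfal
    have hinj : Function.Injective s0 := by
      intro i j hij
      have h1 : b'.1 (e (i, false)) = b'.1 (e (j, false)) := by rw [hs0, hs0, hij]
      have h2 := e.injective (b'.1.injective h1)
      exact congrArg Prod.fst h2
    let s : Perm (Fin m) := Equiv.ofBijective s0 (Finite.injective_iff_bijective.mp hinj)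
    have hs : ∀ i, s i = s0 i := fun i => rfl
    have hb2 : bE e s = b' := by
      apply Subtype.ext
      ext x
      obtain ⟨⟨i, t⟩, rfl⟩ := e.surjective x
      cases t
      · rw [bE_false, hs0, hs]
      · obtain ⟨j, rfl⟩ := s.surjective i
        rw [bE_true, hs, ← hs0, (b'.2 _).2]
    refine ⟨(s, ε), Finset.mem_filter.mpr ⟨Finset.mem_univ _, ?_⟩, ?_⟩
    · simp only
      rw [hb2, hbb]
    · funext x
      obtain ⟨⟨i, t⟩, rfl⟩ := e.surjective x
      simp only [Equiv.symm_apply_apply]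
      rw [hε, h0 i t]

open Classical in
/-- Job Fib2. Every `b` has a two-colouring (`exists_col`), so `(s, ε) ↦ conjPM (flipE e ε) (bE e s)` is surjective (`card_fib`). -/
theorem card_PMT_le (e : Fin m × Bool ≃ Ω) : Fintype.card (PMT Ω) ≤ m.factorial * 2 ^ m := by
  have hsurj : Function.Surjective
      (fun p : Perm (Fin m) × (Fin m → Bool) => conjPM (flipE e p.2) (bE e p.1)) := by
    intro b
    obtain ⟨f, hf⟩ := exists_col (pmE e) b
    have h := card_fib e b
    have hpos : 0 < (Finset.univ.filter fun f : Ω → Bool => IsCol (pmE e) b f).card :=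
      Finset.card_pos.mpr ⟨f, Finset.mem_filter.mpr ⟨Finset.mem_univ f, hf⟩⟩
    rw [← h] at hpos
    obtain ⟨p, hp⟩ := Finset.card_pos.mp hpos
    exact ⟨p, (Finset.mem_filter.mp hp).2⟩
  have h := Fintype.card_le_of_surjective _ hsurj
  rw [Fintype.card_prod, Fintype.card_perm, Fintype.card_fun, Fintype.card_bool,
    Fintype.card_fin] at h
  exact h

/-- Job Fib2. `∑_s N(s)⁻¹ ω(s)² ≤ m! / dim V`, `N = Ncol Bool`. Proof: `2 ^ m ∑_s N(s)⁻¹ ω(s)² = ∑_(s,ε) F (conjPM (flipE e ε) (bE e s))` with `F b = (number of two-colourings of (pmE e, b))⁻¹ * om V (pmE e) b ^ 2`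
(`om_flip`, `card_col`); this is `∑_b (number of (s,ε) over b) F b = ∑_b om V (pmE e) b ^ 2` (`card_fib`, `exists_col`), `= card / dim V ≤ m! 2 ^ m / dim V` (`om_sq_sum`, `card_PMT_le`). -/
theorem sum_inv_le {V : Submodule ℂ (FPM Ω)} (hV : V ∈ Irr Ω) (e : Fin m × Bool ≃ Ω) :
    ∑ s : Perm (Fin m), ((Ncol Bool s : ℕ) : ℝ)⁻¹ * omS V e s ^ 2 ≤ (m.factorial : ℝ) / (Module.finrank ℂ V : ℝ) := by
  classical
  set C : PMT Ω → ℕ := fun b => (Finset.univ.filter fun f : Ω → Bool => IsCol (pmE e) b f).card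
    with hC
  set F : PMT Ω → ℝ := fun b => ((C b : ℕ) : ℝ)⁻¹ * om V (pmE e) b ^ 2 with hF
  set φ : Perm (Fin m) × (Fin m → Bool) → PMT Ω :=
    fun p => conjPM (flipE e p.2) (bE e p.1) with hφ
  have hCpos : ∀ b, (0 : ℝ) < (C b : ℝ) := by
    intro b
    obtain ⟨f, hf⟩ := exists_col (pmE e) b
    have : 0 < C b := Finset.card_pos.mpr ⟨f, Finset.mem_filter.mpr ⟨Finset.mem_univ f, hf⟩⟩
    exact_mod_cast this
  have hval : ∀ p : Perm (Fin m) × (Fin m → Bool),
      F (φ p) = ((Ncol Bool p.1 : ℕ) : ℝ)⁻¹ * omS V e p.1 ^ 2 := by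
    intro p
    have h1 : C (φ p) = Ncol Bool p.1 := card_col e p.1 p.2
    have h2 : om V (pmE e) (φ p) = omS V e p.1 := om_flip hV e p.1 p.2
    simp only [hF, h1, h2]
  have h1 : ∑ p : Perm (Fin m) × (Fin m → Bool), F (φ p) =
      (2 : ℝ) ^ m * ∑ s : Perm (Fin m), ((Ncol Bool s : ℕ) : ℝ)⁻¹ * omS V e s ^ 2 := by
    rw [Fintype.sum_prod_type, Finset.mul_sum]
    refine Finset.sum_congr rfl fun s _ => ?_
    have h3 : ∀ ε : Fin m → Bool, F (φ (s, ε)) = ((Ncol Bool s : ℕ) : ℝ)⁻¹ * omS V e s ^ 2 :=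
      fun ε => hval (s, ε)
    simp only [h3]
    rw [Finset.sum_const, Finset.card_univ,
      Fintype.card_fun, Fintype.card_bool, Fintype.card_fin, nsmul_eq_mul]
    push_cast
    rfl
  have h2 : ∑ p : Perm (Fin m) × (Fin m → Bool), F (φ p) =
      ∑ b : PMT Ω, om V (pmE e) b ^ 2 := by
    rw [← Finset.sum_fiberwise Finset.univ φ (fun p => F (φ p))]
    refine Finset.sum_congr rfl fun b _ => ?_
    have h3 : ∀ p ∈ Finset.univ.filter (fun p => φ p = b), F (φ p) = F b := by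
      intro p hp
      rw [(Finset.mem_filter.mp hp).2]
    rw [Finset.sum_congr rfl h3, Finset.sum_const, nsmul_eq_mul]
    have h4 : (Finset.univ.filter (fun p => φ p = b)).card = C b := by
      rw [hC, hφ]
      convert card_fib e b
    rw [h4, hF]
    simp only
    rw [← mul_assoc, mul_inv_cancel₀ (hCpos b).ne', one_mul]
  have h3 := om_sq_sum hV (pmE e)
  have h4 : ((Fintype.card (PMT Ω) : ℕ) : ℝ) ≤ (m.factorial : ℝ) * 2 ^ m := by
    exact_mod_cast card_PMT_le e
  have h5 : (0 : ℝ) < (Module.finrank ℂ V : ℝ) := by exact_mod_cast finrank_pos hV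
  have h6 : (2 : ℝ) ^ m * ∑ s : Perm (Fin m), ((Ncol Bool s : ℕ) : ℝ)⁻¹ * omS V e s ^ 2 ≤
      (2 : ℝ) ^ m * ((m.factorial : ℝ) / (Module.finrank ℂ V : ℝ)) := by
    rw [← h1, h2, h3, mul_div_assoc', div_le_div_iff_of_pos_right h5, mul_comm]
    exact h4
  exact le_of_mul_le_mul_left h6 (by positivity)

/-- weighted Hoelder -/
private theorem Hol_aux {α : Type} (S : Finset α) (w N : α → ℝ) (hw : ∀ s ∈ S, 0 ≤ w s)
    (hN : ∀ s ∈ S, 0 < N s) (k : ℕ) (hk : 0 < k) :
    ∑ s ∈ S, w s ≤ (∑ s ∈ S, (N s)⁻¹ * w s) ^ ((k : ℝ) / (k + 1)) *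
      (∑ s ∈ S, N s ^ k * w s) ^ ((1 : ℝ) / (k + 1)) := by
  have hk0 : (0 : ℝ) < k := by exact_mod_cast hk
  have hk1 : (0 : ℝ) < (k : ℝ) + 1 := by linarith
  have hpq : Real.HolderConjugate (((k : ℝ) + 1) / k) ((k : ℝ) + 1) := by
    rw [Real.holderConjugate_iff]
    refine ⟨?_, ?_⟩
    · rw [lt_div_iff₀ hk0]
      linarith
    · rw [inv_div]
      field_simp
  have h := Real.inner_le_Lp_mul_Lq_of_nonneg S
    (f := fun s => ((N s)⁻¹ * w s) ^ ((k : ℝ) / (k + 1)))
    (g := fun s => (N s ^ k * w s) ^ ((1 : ℝ) / (k + 1))) hpq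
    (fun s hs => Real.rpow_nonneg (mul_nonneg (inv_nonneg.2 (hN s hs).le) (hw s hs)) _)
    (fun s hs => Real.rpow_nonneg (mul_nonneg (pow_nonneg (hN s hs).le _) (hw s hs)) _)
  have h1 : ∀ s ∈ S, ((N s)⁻¹ * w s) ^ ((k : ℝ) / (k + 1)) *
      (N s ^ k * w s) ^ ((1 : ℝ) / (k + 1)) = w s := by
    intro s hs
    have hn := hN s hs
    have hws := hw s hs
    rw [Real.mul_rpow (inv_nonneg.2 hn.le) hws, Real.mul_rpow (pow_nonneg hn.le _) hws]
    have e1 : ((N s)⁻¹) ^ ((k : ℝ) / (k + 1)) * (N s ^ k) ^ ((1 : ℝ) / (k + 1)) = 1 := by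
      rw [Real.inv_rpow hn.le, ← Real.rpow_natCast (N s) k, ← Real.rpow_mul hn.le, mul_one_div,
        inv_mul_cancel₀ (Real.rpow_pos_of_pos hn _).ne']
    have e2 : (w s) ^ ((k : ℝ) / (k + 1)) * (w s) ^ ((1 : ℝ) / (k + 1)) = w s := by
      rw [← Real.rpow_add_of_nonneg hws (by positivity) (by positivity)]
      have : (k : ℝ) / (k + 1) + 1 / (k + 1) = 1 := by field_simp
      rw [this, Real.rpow_one]
    calc _ = (((N s)⁻¹) ^ ((k : ℝ) / (k + 1)) * (N s ^ k) ^ ((1 : ℝ) / (k + 1))) *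
          ((w s) ^ ((k : ℝ) / (k + 1)) * (w s) ^ ((1 : ℝ) / (k + 1))) := by ring
      _ = w s := by rw [e1, e2, one_mul]
  have h2 : ∀ s ∈ S, (((N s)⁻¹ * w s) ^ ((k : ℝ) / (k + 1))) ^ (((k : ℝ) + 1) / k) =
      (N s)⁻¹ * w s := by
    intro s hs
    rw [← Real.rpow_mul (mul_nonneg (inv_nonneg.2 (hN s hs).le) (hw s hs))]
    have : (k : ℝ) / (k + 1) * ((k + 1) / k) = 1 := by field_simp
    rw [this, Real.rpow_one]
  have h3 : ∀ s ∈ S, ((N s ^ k * w s) ^ ((1 : ℝ) / (k + 1))) ^ ((k : ℝ) + 1) = N s ^ k * w s := by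
    intro s hs
    rw [← Real.rpow_mul (mul_nonneg (pow_nonneg (hN s hs).le _) (hw s hs))]
    have : (1 : ℝ) / (k + 1) * (k + 1) = 1 := by field_simp
    rw [this, Real.rpow_one]
  rw [Finset.sum_congr rfl h1, Finset.sum_congr rfl h2, Finset.sum_congr rfl h3, one_div_div] at h
  exact h

/-- Job Hol. Hoelder's inequality: for every `k`, `E ω² ≤ (1/dim)^(k/(k+1)) ((m+1)^(2^k))^(1/(k+1))`, `E` the mean over `S_m`. Proof: with `N = Ncol Bool`, `ω² = (N⁻¹ ω²)^(k/(k+1)) (N^k ω²)^(1/(k+1))`; by Hoelder with the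
exponents `(k+1)/k`, `k+1` (`Real.inner_le_Lp_mul_Lq`; `k = 0` trivial, or weighted AM-GM: for all `λ > 0`, `x ≤ (k/(k+1)) λ⁻¹ ... `) `E ω² ≤ (E N⁻¹ ω²)^(k/(k+1)) (E N^k ω²)^(1/(k+1))`, then `sum_inv_le`, and
`ω² ≤ 1` (`om_le`), `N^k = Ncol (Fin k → Bool)` (`Ncol_pow`), `burnside`. -/
theorem mean_sq_le {V : Submodule ℂ (FPM Ω)} (hV : V ∈ Irr Ω) (e : Fin m × Bool ≃ Ω) (k : ℕ) :
    (∑ s : Perm (Fin m), omS V e s ^ 2) / (m.factorial : ℝ) ≤
      ((Module.finrank ℂ V : ℝ)⁻¹) ^ ((k : ℝ) / (k + 1)) * (((m : ℝ) + 1) ^ (2 ^ k)) ^ ((1 : ℝ) / (k + 1)) := by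
  have hfac : (0 : ℝ) < (m.factorial : ℝ) := by exact_mod_cast Nat.factorial_pos m
  have hw1 : ∀ s : Perm (Fin m), omS V e s ^ 2 ≤ 1 := by
    intro s
    have h1 := om_le hV (pmE e) (bE e s)
    change (om V (pmE e) (bE e s)) ^ 2 ≤ 1
    rw [← sq_abs]
    exact pow_le_one₀ (abs_nonneg _) h1
  have hw0 : ∀ s : Perm (Fin m), 0 ≤ omS V e s ^ 2 := fun s => sq_nonneg _
  rcases Nat.eq_zero_or_pos k with rfl | hk
  · have hsum : ∑ s : Perm (Fin m), omS V e s ^ 2 ≤ (m.factorial : ℝ) := by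
      calc ∑ s : Perm (Fin m), omS V e s ^ 2 ≤ ∑ s : Perm (Fin m), (1 : ℝ) :=
            Finset.sum_le_sum fun s _ => hw1 s
        _ = (m.factorial : ℝ) := by
            rw [Finset.sum_const, Finset.card_univ, Fintype.card_perm, Fintype.card_fin,
              nsmul_eq_mul, mul_one]
    rw [Nat.cast_zero, zero_div, Real.rpow_zero, one_mul, zero_add, div_one, Real.rpow_one,
      pow_zero, pow_one]
    have h1 : (∑ s : Perm (Fin m), omS V e s ^ 2) / (m.factorial : ℝ) ≤ 1 :=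
      (div_le_one hfac).2 hsum
    have h2 : (0 : ℝ) ≤ m := Nat.cast_nonneg m
    linarith
  · have hN : ∀ s : Perm (Fin m), (0 : ℝ) < ((Ncol Bool s : ℕ) : ℝ) := fun s => by
      exact_mod_cast Ncol_pos s
    have hH := Hol_aux Finset.univ (fun s : Perm (Fin m) => omS V e s ^ 2)
      (fun s => ((Ncol Bool s : ℕ) : ℝ)) (fun s _ => hw0 s) (fun s _ => hN s) k hk
    have hA := sum_inv_le hV e
    have hB : ∑ s : Perm (Fin m), ((Ncol Bool s : ℕ) : ℝ) ^ k * omS V e s ^ 2 ≤
        (m.factorial : ℝ) * ((m : ℝ) + 1) ^ (2 ^ k) := by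
      have h1 := burnside (Fin k → Bool) m
      have h2 : Fintype.card (Fin k → Bool) = 2 ^ k := by
        rw [Fintype.card_fun, Fintype.card_bool, Fintype.card_fin]
      rw [h2] at h1
      calc ∑ s : Perm (Fin m), ((Ncol Bool s : ℕ) : ℝ) ^ k * omS V e s ^ 2
          ≤ ∑ s : Perm (Fin m), ((Ncol (Fin k → Bool) s : ℕ) : ℝ) := by
            refine Finset.sum_le_sum fun s _ => ?_
            rw [Ncol_pow, Nat.cast_pow]
            exact mul_le_of_le_one_right (pow_nonneg (hN s).le _) (hw1 s)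
        _ = ((∑ s : Perm (Fin m), Ncol (Fin k → Bool) s : ℕ) : ℝ) := by push_cast; rfl
        _ ≤ ((m.factorial * (m + 1) ^ (2 ^ k) : ℕ) : ℝ) := by exact_mod_cast h1
        _ = (m.factorial : ℝ) * ((m : ℝ) + 1) ^ (2 ^ k) := by push_cast; rfl
    have hA0 : 0 ≤ ∑ s : Perm (Fin m), ((Ncol Bool s : ℕ) : ℝ)⁻¹ * omS V e s ^ 2 :=
      Finset.sum_nonneg fun s _ => mul_nonneg (inv_nonneg.2 (hN s).le) (hw0 s)
    have hB0 : 0 ≤ ∑ s : Perm (Fin m), ((Ncol Bool s : ℕ) : ℝ) ^ k * omS V e s ^ 2 :=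
      Finset.sum_nonneg fun s _ => mul_nonneg (pow_nonneg (hN s).le _) (hw0 s)
    have ha : (0 : ℝ) ≤ (k : ℝ) / (k + 1) := by positivity
    have hb : (0 : ℝ) ≤ (1 : ℝ) / (k + 1) := by positivity
    have hab : (k : ℝ) / (k + 1) + 1 / (k + 1) = 1 := by
      have : (0 : ℝ) < (k : ℝ) + 1 := by positivity
      field_simp
    have hd0 : (0 : ℝ) ≤ (Module.finrank ℂ V : ℝ)⁻¹ := inv_nonneg.2 (Nat.cast_nonneg _)
    have hm0 : (0 : ℝ) ≤ ((m : ℝ) + 1) ^ (2 ^ k) := by positivity
    rw [div_le_iff₀ hfac]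
    calc ∑ s : Perm (Fin m), omS V e s ^ 2
        ≤ (∑ s : Perm (Fin m), ((Ncol Bool s : ℕ) : ℝ)⁻¹ * omS V e s ^ 2) ^ ((k : ℝ) / (k + 1)) *
          (∑ s : Perm (Fin m), ((Ncol Bool s : ℕ) : ℝ) ^ k * omS V e s ^ 2) ^ ((1 : ℝ) / (k + 1)) :=
          hH
      _ ≤ ((m.factorial : ℝ) * (Module.finrank ℂ V : ℝ)⁻¹) ^ ((k : ℝ) / (k + 1)) *
          ((m.factorial : ℝ) * ((m : ℝ) + 1) ^ (2 ^ k)) ^ ((1 : ℝ) / (k + 1)) := by
          refine mul_le_mul (Real.rpow_le_rpow hA0 ?_ ha) (Real.rpow_le_rpow hB0 hB hb)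
            (Real.rpow_nonneg hB0 _) (Real.rpow_nonneg (mul_nonneg hfac.le hd0) _)
          rw [← div_eq_mul_inv]
          exact hA
      _ = ((Module.finrank ℂ V : ℝ)⁻¹) ^ ((k : ℝ) / (k + 1)) *
          (((m : ℝ) + 1) ^ (2 ^ k)) ^ ((1 : ℝ) / (k + 1)) * (m.factorial : ℝ) := by
          rw [Real.mul_rpow hfac.le hd0, Real.mul_rpow hfac.le hm0]
          have e1 : (m.factorial : ℝ) ^ ((k : ℝ) / (k + 1)) * (m.factorial : ℝ) ^ ((1 : ℝ) / (k + 1)) =
              (m.factorial : ℝ) := by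
            rw [← Real.rpow_add hfac, hab, Real.rpow_one]
          calc _ = ((Module.finrank ℂ V : ℝ)⁻¹) ^ ((k : ℝ) / (k + 1)) *
                (((m : ℝ) + 1) ^ (2 ^ k)) ^ ((1 : ℝ) / (k + 1)) *
                ((m.factorial : ℝ) ^ ((k : ℝ) / (k + 1)) *
                  (m.factorial : ℝ) ^ ((1 : ℝ) / (k + 1))) := by ring
            _ = _ := by rw [e1]

end MPbcd198.H
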