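import Pool.Agent.Lib.MP_bcd198_co.H.Act

/-!
# MP_bcd198_co, stream H: orthogonal projections
-/

set_option autoImplicit false
set_option linter.unusedSectionVars false

namespace MPbcd198.H

open Equiv

variable {Ω : Type} [Fintype Ω] [DecidableEq Ω]

/-- Job Proj. Existence of the orthogonal projection onto `V`. Proof: transport along `WithLp.linearEquiv 2 ℂ (PMT Ω → ℂ)` (`EuclideanSpace ℂ (PMT Ω)`, use `classical` for the
instance `Fintype (PMT Ω)`), where `V.map` has Mathlib's orthogonal projection (`Submodule.starProjection` or `Submodule.orthogonalProjection`; finite dimensional, so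
`HasOrthogonalProjection`); `ipF f g` is the inner product `inner ℂ f g` of `EuclideanSpace` (`EuclideanSpace.inner_eq_star_dotProduct` or `PiLp.inner_apply`). The third property is the
self-adjointness of the projection (`Submodule.inner_starProjection_left_eq_right`). -/
theorem exists_proj (V : Submodule ℂ (FPM Ω)) : ∃ P : FPM Ω →ₗ[ℂ] FPM Ω,
    (∀ f, P f ∈ V) ∧ (∀ f ∈ V, P f = f) ∧ (∀ f g, ipF (P f) g = ipF f (P g)) := by
  classical
  let e : EuclideanSpace ℂ (PMT Ω) ≃ₗ[ℂ] (FPM Ω) := WithLp.linearEquiv 2 ℂ (PMT Ω → ℂ)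
  let W : Submodule ℂ (EuclideanSpace ℂ (PMT Ω)) := V.comap e.toLinearMap
  have hip : ∀ f g : EuclideanSpace ℂ (PMT Ω), ipF (e f) (e g) = inner ℂ f g := by
    intro f g
    rw [PiLp.inner_apply]
    unfold ipF
    refine Finset.sum_congr ?_ fun a _ => ?_
    · congr
    · rw [RCLike.inner_apply]
      exact mul_comm _ _
  refine ⟨e.toLinearMap ∘ₗ (W.starProjection : EuclideanSpace ℂ (PMT Ω) →ₗ[ℂ] EuclideanSpace ℂ (PMT Ω)) ∘ₗ
    e.symm.toLinearMap, ?_, ?_, ?_⟩
  · intro f
    exact W.starProjection_apply_mem (e.symm f)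
  · intro f hf
    have h1 : e.symm f ∈ W := by
      show e (e.symm f) ∈ V
      rw [e.apply_symm_apply]
      exact hf
    have h2 : W.starProjection (e.symm f) = e.symm f := Submodule.starProjection_eq_self_iff.mpr h1
    show e (W.starProjection (e.symm f)) = f
    rw [h2, e.apply_symm_apply]
  · intro f g
    show ipF (e (W.starProjection (e.symm f))) g = ipF f (e (W.starProjection (e.symm g)))
    have h1 : ipF (e (W.starProjection (e.symm f))) g = inner ℂ (W.starProjection (e.symm f)) (e.symm g) := by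
      rw [← hip, e.apply_symm_apply]
    have h2 : ipF f (e (W.starProjection (e.symm g))) = inner ℂ (e.symm f) (W.starProjection (e.symm g)) := by
      rw [← hip, e.apply_symm_apply]
    rw [h1, h2]
    exact Submodule.inner_starProjection_left_eq_right W (e.symm f) (e.symm g)

/-- the orthogonal projection onto `V` -/
noncomputable def pr (V : Submodule ℂ (FPM Ω)) : FPM Ω →ₗ[ℂ] FPM Ω := (exists_proj V).choose

theorem pr_mem (V : Submodule ℂ (FPM Ω)) (f : FPM Ω) : pr V f ∈ V := (exists_proj V).choose_spec.1 f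

theorem pr_of_mem {V : Submodule ℂ (FPM Ω)} {f : FPM Ω} (hf : f ∈ V) : pr V f = f := (exists_proj V).choose_spec.2.1 f hf

theorem pr_symm (V : Submodule ℂ (FPM Ω)) (f g : FPM Ω) : ipF (pr V f) g = ipF f (pr V g) := (exists_proj V).choose_spec.2.2 f g

theorem pr_pr (V : Submodule ℂ (FPM Ω)) (f : FPM Ω) : pr V (pr V f) = pr V f := pr_of_mem (pr_mem V f)

/-- Job Proj. Proof: `ipF (pr V f) g = ipF f (pr V g)`; if `pr V f = 0` then for `g ∈ V` `ipF g f = ipF (pr V g) f = ipF g (pr V f) = 0`; conversely with `g = pr V f`: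
`0 = ipF (pr V f) f = ipF (pr V (pr V f)) f = ipF (pr V f) (pr V f)`, use `ipF_self_eq_zero`. -/
theorem pr_eq_zero_iff (V : Submodule ℂ (FPM Ω)) (f : FPM Ω) : pr V f = 0 ↔ ∀ g ∈ V, ipF g f = 0 := by
  constructor
  · intro h g hg
    rw [← pr_of_mem hg, pr_symm, h, ipF_zero_right]
  · intro h
    have h1 := h (pr V f) (pr_mem V f)
    rw [← pr_pr, pr_symm] at h1
    exact ipF_self_eq_zero.1 h1

/-- Job Proj. The projection onto an invariant subspace is equivariant. Proof: let `d = pr V (actF σ f) - actF σ (pr V f)`; it is in `V`, and for every `g ∈ V`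
`ipF g d = ipF (pr V g) (actF σ f) - ipF g (actF σ (pr V f)) = ipF (actF σ⁻¹ g) f - ipF (actF σ⁻¹ g) (pr V f) = 0` as `actF σ⁻¹ g ∈ V` (`ipF_actF`, `actF_act_inv`, `pr_symm`);
`g = d` gives `d = 0`. -/
theorem pr_act {V : Submodule ℂ (FPM Ω)} (hV : Inv V) (σ : Perm Ω) (f : FPM Ω) : pr V (actF σ f) = actF σ (pr V f) := by
  have hd : pr V (actF σ f) - actF σ (pr V f) ∈ V := V.sub_mem (pr_mem V _) (hV σ _ (pr_mem V f))
  have hg : ∀ g ∈ V, ipF g (pr V (actF σ f) - actF σ (pr V f)) = 0 := by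
    intro g hg
    have h1 : ipF g (pr V (actF σ f)) = ipF (actF σ⁻¹ g) f := by
      rw [← pr_symm, pr_of_mem hg, ← ipF_actF σ (actF σ⁻¹ g) f, actF_act_inv]
    have h2 : ipF g (actF σ (pr V f)) = ipF (actF σ⁻¹ g) f := by
      rw [← ipF_actF σ⁻¹ g (actF σ (pr V f)), actF_inv_act, ← pr_symm, pr_of_mem (hV σ⁻¹ g hg)]
    rw [ipF_sub_right, h1, h2, sub_self]
  exact sub_eq_zero.1 (ipF_self_eq_zero.1 (hg _ hd))

/-- Job Proj. The trace of a projection is the dimension (`LinearMap.IsProj.trace`). -/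
theorem trace_pr (V : Submodule ℂ (FPM Ω)) : LinearMap.trace ℂ (FPM Ω) (pr V) = (Module.finrank ℂ V : ℂ) := by
  have h : LinearMap.IsProj V (pr V) := ⟨pr_mem V, fun f hf => pr_of_mem hf⟩
  exact h.trace

end MPbcd198.H
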