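import Pool.Agent.Lib.MP_bcd198_co.H.Inv

/-!
# MP_bcd198_co, stream H: Schur's lemma and the spherical function
-/

set_option autoImplicit false
set_option linter.unusedSectionVars false

namespace MPbcd198.H

open Equiv

variable {Ω : Type} [Fintype Ω] [DecidableEq Ω]

/-- Job Sch. Schur's lemma. Proof: `T` maps `V` to `V` as it commutes with `pr V`. `V` is finite dimensional and not zero, so the restriction has an eigenvalue `ω`
(`Module.End.exists_eigenvalue`), and `V ⊓ ker (T - ω)` is invariant and not `⊥`, so it is `V`. -/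
theorem schur {V : Submodule ℂ (FPM Ω)} (hV : V ∈ Irr Ω) {T : FPM Ω →ₗ[ℂ] FPM Ω} (hT : Eqv T) : ∃ ω : ℂ, ∀ f ∈ V, T f = ω • f := by
  classical
  obtain ⟨hne, hinv, hmin⟩ := hV
  have hmaps : ∀ f ∈ V, T f ∈ V := by
    intro f hf
    have h1 := Eqv.comm (pr_eqv hinv) hT f
    rw [pr_of_mem hf] at h1
    rw [← h1]
    exact pr_mem V _
  haveI : Nontrivial V := Submodule.nontrivial_iff_ne_bot.mpr hne
  obtain ⟨ω, hω⟩ := Module.End.exists_eigenvalue (T.restrict hmaps)
  obtain ⟨v, hv⟩ := hω.exists_hasEigenvector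
  have hv1 : T (v : FPM Ω) = ω • (v : FPM Ω) := by
    have h2 := congrArg (fun z : V => (z : FPM Ω)) hv.apply_eq_smul
    simpa only [LinearMap.restrict_coe_apply, Submodule.coe_smul] using h2
  have hv0 : (v : FPM Ω) ≠ 0 := by
    intro h0
    exact hv.2 (Subtype.ext h0)
  refine ⟨ω, ?_⟩
  let W : Submodule ℂ (FPM Ω) := V ⊓ LinearMap.ker (T - ω • LinearMap.id)
  have hW : ∀ f, f ∈ W ↔ f ∈ V ∧ T f = ω • f := by
    intro f
    simp only [W, Submodule.mem_inf, LinearMap.mem_ker, LinearMap.sub_apply, LinearMap.smul_apply, LinearMap.id_apply, sub_eq_zero]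
  have hWinv : Inv W := by
    intro σ f hf
    rw [hW] at hf ⊢
    exact ⟨hinv σ f hf.1, by rw [hT, hf.2, map_smul]⟩
  rcases hmin W inf_le_left hWinv with h | h
  · exfalso
    have hvW : (v : FPM Ω) ∈ W := (hW _).mpr ⟨v.2, hv1⟩
    rw [h, Submodule.mem_bot] at hvW
    exact hv0 hvW
  · intro f hf
    rw [← h] at hf
    exact ((hW f).mp hf).2

open Classical in
/-- the (zonal) spherical function of `V`: the kernel of the projection, with value `1` on the diagonal -/
noncomputable def om (V : Submodule ℂ (FPM Ω)) (a b : PMT Ω) : ℝ :=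
  (Fintype.card (PMT Ω) : ℝ) / (Module.finrank ℂ V : ℝ) * (pr V (dl a) b).re

/-- Job Sch. Proof: `Eqv.ker_conj`. -/
theorem om_conj {V : Submodule ℂ (FPM Ω)} (hV : V ∈ Irr Ω) (σ : Perm Ω) (a b : PMT Ω) : om V (conjPM σ a) (conjPM σ b) = om V a b := by
  unfold om
  rw [Eqv.ker_conj (pr_eqv hV.2.1)]

/-- Job Sch, auxiliary: the dimension is positive. -/
theorem sch_finrank_pos {V : Submodule ℂ (FPM Ω)} (hV : V ∈ Irr Ω) : 0 < Module.finrank ℂ V := by
  classical
  haveI : Nontrivial V := Submodule.nontrivial_iff_ne_bot.mpr hV.1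
  exact Module.finrank_pos

open Classical in
/-- Job Sch, auxiliary: the diagonal values of the projection. -/
theorem sch_diag {V : Submodule ℂ (FPM Ω)} (hV : V ∈ Irr Ω) (a : PMT Ω) :
    (Fintype.card (PMT Ω) : ℂ) * pr V (dl a) a = (Module.finrank ℂ V : ℂ) := by
  rw [← trace_pr, trace_eq]
  have h1 : ∀ b : PMT Ω, pr V (dl b) b = pr V (dl a) a := by
    intro b
    obtain ⟨σ, hσ⟩ := exists_conj a b
    rw [← hσ, Eqv.ker_conj (pr_eqv hV.2.1)]
  rw [Finset.sum_congr rfl fun b _ => h1 b, Finset.sum_const, Finset.card_univ, nsmul_eq_mul]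

open Classical in
/-- Job Sch, auxiliary: the diagonal values of the projection. -/
theorem sch_diag_re {V : Submodule ℂ (FPM Ω)} (hV : V ∈ Irr Ω) (a : PMT Ω) :
    (pr V (dl a) a).re = (Module.finrank ℂ V : ℝ) / (Fintype.card (PMT Ω) : ℝ) := by
  have h1 := sch_diag hV a
  have hc : (Fintype.card (PMT Ω) : ℝ) ≠ 0 := by
    haveI : Nonempty (PMT Ω) := ⟨a⟩
    exact_mod_cast (Fintype.card_ne_zero : Fintype.card (PMT Ω) ≠ 0)
  rw [eq_div_iff hc, mul_comm]
  have h2 := congrArg Complex.re h1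
  rw [← Complex.ofReal_natCast, Complex.re_ofReal_mul, Complex.natCast_re] at h2
  exact h2

/-- Job Sch. Proof: all the diagonal values `pr V (dl a) a` are equal (`exists_conj`, `Eqv.ker_conj`), their sum is the trace of `pr V`, i.e. the dimension (`trace_eq`, `trace_pr`). -/
theorem om_self {V : Submodule ℂ (FPM Ω)} (hV : V ∈ Irr Ω) (a : PMT Ω) : om V a a = 1 := by
  classical
  unfold om
  rw [sch_diag_re hV a]
  have hc : (Fintype.card (PMT Ω) : ℝ) ≠ 0 := by
    haveI : Nonempty (PMT Ω) := ⟨a⟩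
    exact_mod_cast (Fintype.card_ne_zero : Fintype.card (PMT Ω) ≠ 0)
  have hd : (Module.finrank ℂ V : ℝ) ≠ 0 := by
    exact_mod_cast (sch_finrank_pos hV).ne'
  rw [div_mul_div_comm, mul_comm, div_self]
  exact mul_ne_zero hd hc

/-- Job Sch. The dimension is positive. -/
theorem finrank_pos {V : Submodule ℂ (FPM Ω)} (hV : V ∈ Irr Ω) : 0 < Module.finrank ℂ V :=
  sch_finrank_pos hV

open Classical in
/-- Job Sch. Proof: `∑ b, |pr V (dl a) b|² = ipF (pr V (dl a)) (pr V (dl a)) = ipF (dl a) (pr V (dl a)) = pr V (dl a) a = dim V / card` (`om_self`), `pr_real`. -/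
theorem om_sq_sum {V : Submodule ℂ (FPM Ω)} (hV : V ∈ Irr Ω) (a : PMT Ω) :
    ∑ b : PMT Ω, om V a b ^ 2 = (Fintype.card (PMT Ω) : ℝ) / (Module.finrank ℂ V : ℝ) := by
  have hc : (Fintype.card (PMT Ω) : ℝ) ≠ 0 := by
    haveI : Nonempty (PMT Ω) := ⟨a⟩
    exact_mod_cast (Fintype.card_ne_zero : Fintype.card (PMT Ω) ≠ 0)
  have hd : (Module.finrank ℂ V : ℝ) ≠ 0 := by
    exact_mod_cast (sch_finrank_pos hV).ne'
  have h1 : ((∑ b : PMT Ω, (pr V (dl a) b).re ^ 2 : ℝ) : ℂ) = pr V (dl a) a := by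
    have h2 : ipF (pr V (dl a)) (pr V (dl a)) = pr V (dl a) a := by
      rw [pr_symm, pr_pr, ipF_dl_left]
    rw [← h2, ipF]
    push_cast
    refine Finset.sum_congr rfl fun b _ => ?_
    have h3 := pr_real hV.2.1 a b
    conv_rhs => rw [← h3]
    rw [Complex.conj_ofReal, sq]
  have h4 : ∑ b : PMT Ω, (pr V (dl a) b).re ^ 2 = (Module.finrank ℂ V : ℝ) / (Fintype.card (PMT Ω) : ℝ) := by
    rw [← sch_diag_re hV a, ← h1, Complex.ofReal_re]
  unfold om
  simp only [mul_pow]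
  rw [← Finset.mul_sum, h4]
  field_simp

private theorem sch2_ker (V : Submodule ℂ (FPM Ω)) (a b : PMT Ω) : pr V (dl a) b = ipF (pr V (dl b)) (pr V (dl a)) := by
  rw [pr_symm, pr_pr, ipF_dl_left]

/-- Job Sch2. Positive definiteness, in the form for a family of matchings `g i`. Proof: with `f = ∑ i, c i • dl (g i)` the sum is `card / dim * ipF (pr V f) (pr V f) ≥ 0`
(`pr V (dl a) b = ipF (dl b) (pr V (dl a)) = ipF (pr V (dl b)) (pr V (dl a))`, `pr_real`). -/
theorem om_posdef {V : Submodule ℂ (FPM Ω)} (hV : V ∈ Irr Ω) {ι : Type} [Fintype ι] (g : ι → PMT Ω) (c : ι → ℝ) :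
    0 ≤ ∑ i, ∑ j, c i * c j * om V (g i) (g j) := by
  classical
  have hsum : ∀ (F : FPM Ω), ipF F (pr V (∑ i, ((c i : ℝ) : ℂ) • dl (g i))) =
      ∑ i, ((c i : ℝ) : ℂ) * ipF F (pr V (dl (g i))) := by
    intro F
    rw [map_sum, ipF_sum_right]
    exact Finset.sum_congr rfl fun i _ => by rw [map_smul, ipF_smul_right]
  have h0 : 0 ≤ (ipF (pr V (∑ i, ((c i : ℝ) : ℂ) • dl (g i))) (pr V (∑ i, ((c i : ℝ) : ℂ) • dl (g i)))).re := by
    rw [ipF_self, Complex.ofReal_re]
    exact Finset.sum_nonneg fun a _ => by positivity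
  have h1 : (ipF (pr V (∑ i, ((c i : ℝ) : ℂ) • dl (g i))) (pr V (∑ i, ((c i : ℝ) : ℂ) • dl (g i)))).re =
      ∑ i, ∑ j, c i * c j * (pr V (dl (g i)) (g j)).re := by
    rw [hsum, Complex.re_sum, Finset.sum_comm]
    refine Finset.sum_congr rfl fun j _ => ?_
    rw [Complex.re_ofReal_mul, ← ipF_conj, Complex.conj_re, hsum, Complex.re_sum, Finset.mul_sum]
    refine Finset.sum_congr rfl fun i _ => ?_
    rw [Complex.re_ofReal_mul, ← sch2_ker]
    ring
  have h2 : ∑ i, ∑ j, c i * c j * om V (g i) (g j) =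
      (Fintype.card (PMT Ω) : ℝ) / (Module.finrank ℂ V : ℝ) * ∑ i, ∑ j, c i * c j * (pr V (dl (g i)) (g j)).re := by
    rw [Finset.mul_sum]
    refine Finset.sum_congr rfl fun i _ => ?_
    rw [Finset.mul_sum]
    refine Finset.sum_congr rfl fun j _ => ?_
    unfold om
    ring
  rw [h2, ← h1]
  positivity

/-- Job Sch2. Proof: `om_posdef` for two matchings and `c = (1, ±1)`, `om_self`, symmetry (`Eqv.ker_symm`). -/
theorem om_le {V : Submodule ℂ (FPM Ω)} (hV : V ∈ Irr Ω) (a b : PMT Ω) : |om V a b| ≤ 1 := by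
  have hs : om V b a = om V a b := by
    unfold om
    rw [(pr_eqv hV.2.1).ker_symm b a]
  have h1 := om_posdef hV ![a, b] ![1, 1]
  have h2 := om_posdef hV ![a, b] ![1, -1]
  simp only [Fin.sum_univ_two, Matrix.cons_val_zero, Matrix.cons_val_one, om_self hV, hs] at h1 h2
  rw [abs_le]
  constructor <;> linarith

/-- Job Sch2. The eigenvalue of the Markov operator on `V` is the value of the spherical function. Proof: by `schur` and `KOp_eqv` there is `ω` with `KOp Ω r f = ω • f` on `V`; take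
`f = pr V (dl a)` and evaluate at `a`: `KOp Ω r f a` is the mean of `pr V (dl a) b'` over the `b'` with `Rel r a b'`, all of which have the same value (`rel_conj`, `Eqv.ker_conj`) `pr V (dl a) b`;
so `pr V (dl a) b = ω pr V (dl a) a`, and `pr V (dl a) a = dim / card ≠ 0`. -/
theorem om_KOp {V : Submodule ℂ (FPM Ω)} (hV : V ∈ Irr Ω) {r : ℕ} {a b : PMT Ω} (h : Rel r a.1 b.1) :
    ∀ f ∈ V, KOp Ω r f = ((om V a b : ℝ) : ℂ) • f := by
  classical
  obtain ⟨ω, hω⟩ := schur hV (KOp_eqv (Ω := Ω) r)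
  have h1 : KOp Ω r (pr V (dl a)) a = pr V (dl a) b := by
    have h2 : ∀ b' ∈ Finset.univ.filter (fun b' : PMT Ω => Rel r a.1 b'.1), pr V (dl a) b' = pr V (dl a) b := by
      intro b' hb'
      obtain ⟨σ, hσ, hσ'⟩ := rel_conj a b b' h (Finset.mem_filter.mp hb').2
      have h3 := (pr_eqv hV.2.1).ker_conj σ a b
      rw [hσ, hσ'] at h3
      exact h3
    have h4 : b ∈ Finset.univ.filter (fun b' : PMT Ω => Rel r a.1 b'.1) :=
      Finset.mem_filter.mpr ⟨Finset.mem_univ _, h⟩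
    have h5 : (((Finset.univ.filter fun b : PMT Ω => Rel r a.1 b.1).card : ℕ) : ℂ) ≠ 0 := by
      rw [Nat.cast_ne_zero]
      exact Finset.card_ne_zero_of_mem h4
    show (((Finset.univ.filter fun b : PMT Ω => Rel r a.1 b.1).card : ℕ) : ℂ)⁻¹ *
      ∑ b ∈ Finset.univ.filter fun b : PMT Ω => Rel r a.1 b.1, pr V (dl a) b = _
    rw [Finset.sum_congr rfl h2, Finset.sum_const, nsmul_eq_mul, inv_mul_cancel_left₀ h5]
  have h6 : pr V (dl a) b = ω * pr V (dl a) a := by
    rw [← h1, hω _ (pr_mem V _)]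
    rfl
  have h7 : ((om V a b : ℝ) : ℂ) = ω := by
    have h8 : ((om V a b : ℝ) : ℂ) = ((Fintype.card (PMT Ω) : ℝ) / (Module.finrank ℂ V : ℝ) : ℝ) * pr V (dl a) b := by
      rw [← pr_real hV.2.1 a b, om]
      push_cast
      ring
    have h9 : ((om V a a : ℝ) : ℂ) = ((Fintype.card (PMT Ω) : ℝ) / (Module.finrank ℂ V : ℝ) : ℝ) * pr V (dl a) a := by
      rw [← pr_real hV.2.1 a a, om]
      push_cast
      ring
    rw [om_self hV, Complex.ofReal_one] at h9
    rw [h8, h6, mul_left_comm, ← h9, mul_one]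
  intro f hf
  rw [h7]
  exact hω f hf

/-- Job Sch2. If no pair is in relation, then `KOp` is zero. -/
theorem KOp_zero {r : ℕ} (h : ∀ a b : PMT Ω, ¬ Rel r a.1 b.1) (f : FPM Ω) : KOp Ω r f = 0 := by
  classical
  funext a
  show (((Finset.univ.filter fun b : PMT Ω => Rel r a.1 b.1).card : ℕ) : ℂ)⁻¹ *
      ∑ b ∈ Finset.univ.filter fun b : PMT Ω => Rel r a.1 b.1, f b = 0
  rw [Finset.filter_false_of_mem fun b _ => h a b]
  simp

end MPbcd198.H
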